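import Pool.Agent.H.MP_83e36b_nt.rr.KZ
import Pool.Agent.H.MP_83e36b_nt.bc.FDef

/-! Transfer of the condition on the kernel to the fibre product. -/

set_option autoImplicit false

namespace NF83

/-- Proof: `mul`: for `x ∈ G'` and `a ∈ K`, `γ' (q' x) (algebraMap K E a) = algebraMap K E (γ (q (p x)) a)`
(`hγ'`).  `inj`: `hk.map`, `h.inj`, `hk.inj`.  `fin`, `stab`: clear.  `gen`: for `z ∈ Z`, `x` with `q' x = 1`:
`z • ρ (p x)` is in the closure for `G`; the homomorphism `Matrix.map (algebraMap K E)` of monoids maps the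
generating set for `G` to the one for `G'` (`hk.surj` lifts `s`), `Submonoid.closure_induction` or
`Submonoid.map_closure`. -/
theorem KerReflZ.pull {k K L E : Type} [Field k] [Field K] [Field L] [Field E] [Algebra k K]
    [Algebra L E] [Algebra K E] {G A G' A' : Type} [Group G] [Group A] [Group G'] [Group A']
    {γ : A →* (K ≃ₐ[k] K)} {q : G →* A} {n : ℕ} {ρ : G → Matrix (Fin n) (Fin n) K}
    {Z : Subgroup Kˣ} (h : KerReflZ γ q ρ Z) {γ' : A' →* (E ≃ₐ[L] E)} {q' : G' →* A'}
    {p : G' →* G}
    (hγ' : ∀ x a, γ' (q' x) (algebraMap K E a) = algebraMap K E (γ (q (p x)) a))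
    (hk : KIso q q' p) :
    KerReflZ γ' q' (fun x => (ρ (p x)).map (algebraMap K E))
      (Z.map (Units.map (algebraMap K E : K →* E))) := by
  have hinjK : Function.Injective (algebraMap K E) := (algebraMap K E).injective
  have hone : ∀ M : Matrix (Fin n) (Fin n) K, M.map (algebraMap K E) = 1 ↔ M = 1 := by
    intro M
    constructor
    · intro hM
      ext i j
      apply hinjK
      have h1 := congrFun (congrFun hM i) j
      rw [Matrix.map_apply] at h1
      rw [h1, Matrix.one_apply, Matrix.one_apply]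
      split_ifs
      · rw [map_one]
      · rw [map_zero]
    · intro hM
      rw [hM, Matrix.map_one _ (map_zero _) (map_one _)]
  refine ⟨?_, fun x y => ?_, fun x hx hρ => ?_, ?_, ?_, ?_⟩
  · show (ρ (p 1)).map (algebraMap K E) = 1
    rw [hone, map_one, h.one]
  · show (ρ (p (x * y))).map (algebraMap K E) =
      (ρ (p x)).map (algebraMap K E) * ((ρ (p y)).map (algebraMap K E)).map (γ' (q' x))
    rw [map_mul, h.mul, Matrix.map_mul]
    congr 1
    ext i j
    simp only [Matrix.map_apply]
    exact (hγ' x _).symm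
  · have h1 : p x = 1 := h.inj _ (hk.map x hx) ((hone _).1 hρ)
    exact hk.inj x hx h1
  · have hfin := h.fin
    have h1 : ((Z.map (Units.map (algebraMap K E : K →* E)) : Subgroup Eˣ) : Set Eˣ).Finite := by
      rw [Subgroup.coe_map]
      exact (Set.toFinite (Z : Set Kˣ)).image _
    exact h1.to_subtype
  · rintro x _ ⟨z, hz, rfl⟩
    refine ⟨Units.map (γ (q (p x)) : K →* K) z, h.stab (p x) z hz, ?_⟩
    ext
    exact (hγ' x (z : K)).symm
  · rintro _ ⟨z, hz, rfl⟩ x hx
    have h1 := h.gen z hz (p x) (hk.map x hx)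
    obtain ⟨S, hS⟩ : ∃ S : Set (Matrix (Fin n) (Fin n) K), S = {M : Matrix (Fin n) (Fin n) K |
      (∃ z' ∈ Z, ∃ s, q s = 1 ∧ M = (z' : K) • ρ s) ∧
      ∃ u w : Fin n → K, M = 1 + Matrix.vecMulVec u w} := ⟨_, rfl⟩
    obtain ⟨S', hS'⟩ : ∃ S' : Set (Matrix (Fin n) (Fin n) E), S' = {M : Matrix (Fin n) (Fin n) E |
      (∃ z' ∈ Z.map (Units.map (algebraMap K E : K →* E)), ∃ s, q' s = 1 ∧
        M = (z' : E) • (ρ (p s)).map (algebraMap K E)) ∧
      ∃ u w : Fin n → E, M = 1 + Matrix.vecMulVec u w} := ⟨_, rfl⟩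
    have hsm : ∀ (c : K) (M : Matrix (Fin n) (Fin n) K), (c • M).map (algebraMap K E) =
        algebraMap K E c • M.map (algebraMap K E) := by
      intro c M
      ext i j
      simp only [Matrix.map_apply, Matrix.smul_apply, smul_eq_mul, map_mul]
    rw [← hS] at h1
    suffices h4 : ((z : K) • ρ (p x)).map (algebraMap K E) ∈ Submonoid.closure S' by
      rw [hsm, hS'] at h4
      exact h4
    generalize (z : K) • ρ (p x) = M at h1
    induction h1 using Submonoid.closure_induction with
    | mem M hM =>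
      refine Submonoid.subset_closure ?_
      rw [hS] at hM
      rw [hS']
      obtain ⟨⟨z', hz', s, hs, hM1⟩, u, w, hM2⟩ := hM
      obtain ⟨y, hy, rfl⟩ := hk.surj s hs
      refine ⟨⟨Units.map (algebraMap K E : K →* E) z', ⟨z', hz', rfl⟩, y, hy, ?_⟩,
        fun i => algebraMap K E (u i), fun i => algebraMap K E (w i), ?_⟩
      · rw [hM1, hsm]
        rfl
      · rw [hM2]
        ext i j
        simp only [Matrix.map_apply, Matrix.add_apply, Matrix.one_apply, Matrix.vecMulVec_apply,
          map_add, map_mul]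
        split_ifs
        · rw [map_one]
        · rw [map_zero]
    | one =>
      rw [Matrix.map_one _ (map_zero _) (map_one _)]
      exact Submonoid.one_mem _
    | mul M N _ _ h2 h3 =>
      rw [Matrix.map_mul]
      exact Submonoid.mul_mem _ h2 h3

end NF83
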