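import Pool.Agent.H.MP_83e36b_nt.rr.TDef
import Pool.Agent.H.MP_83e36b_nt.rr.RedZ
import Pool.Agent.H.MP_83e36b_nt.tn.End

/-! The main theorem for the towers with reflection groups. -/

set_option autoImplicit false

open NumberField IsDedekindDomain

namespace NF83

open CM83 NR83 WA83 DC83

variable {k : Type} [Field k] [NumberField k]

theorem wa_refl {K : Type} [Field K] [Algebra k K] {G A : Type} [Group G] [Finite G] [Group A]
    (γ : A →* (K ≃ₐ[k] K)) (q : G →* A) (hq : Function.Surjective q) {n : ℕ}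
    {ρ : G → Matrix (Fin n) (Fin n) K} {Z : Subgroup Kˣ} (h : KerReflZ γ q ρ Z)
    (hγ : WAFinFor γ) :
    WAFinFor (γ.comp q) := by
  intro d β hβ m f g F _ _ ξ η hgen hg hF
  have hA : Finite A := Finite.of_surjective q hq
  obtain ⟨e, δ, hδ⟩ := exists_semi γ
  exact hγ e δ hδ m f g F ξ η hgen hg (hF.trans (red_reflZ q hq γ h β hβ δ hδ))

/-- Main theorem. -/
theorem main_rtower {K : Type} [Field K] [Algebra k K] {G : Type} [Group G] [Finite G]
    (α : G →* (K ≃ₐ[k] K)) (hfix : fixF α = ⊥) (hα : RTower α) : WAFinFor α := by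
  have hstar : ∀ T : Finset (HeightOneSpectrum (𝓞 k)), @StarAll k _ (plSys k T) :=
    fun T _ _ hm he _ hQ hd => star_nf (hMiso_nf k) T hm he hQ hd
  have hQE : ∀ T : Finset (HeightOneSpectrum (𝓞 k)), @QEx k _ (plSys k T) :=
    fun T => q_ex (hMiso_nf k) T
  rename_i hfin
  revert hfin hfix
  induction hα with
  | gal α h =>
    intro hfin hfix
    obtain ⟨h1, h2, h3⟩ := gal_of_fixR hfix
    exact wa_galR α h
  | refl γ q hq ρ Z h hγ ih =>
    intro hfin hfix
    rw [fixF_comp γ q hq] at hfix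
    have hA := Finite.of_surjective q hq
    exact wa_refl γ q hq h (ih hfix)
  | alt γ q hq hN hγ ih =>
    intro hfin hfix
    rw [fixF_comp γ q hq] at hfix
    have hA := Finite.of_surjective q hq
    exact wa_altR γ q hq hN (ih hfix)
  | dbl γ q hq n N hn hN φ hφ hγ ih =>
    intro hfin hfix
    rw [fixF_comp γ q hq] at hfix
    have hA := Finite.of_surjective q hq
    obtain ⟨h1, h2, h3⟩ := gal_of_fixR hfix
    obtain ⟨m, rfl⟩ := Nat.exists_eq_add_of_le hN
    obtain ⟨ψ, hψ⟩ := hφ.ker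
    exact wa_dblN hstar hQE γ h3 q hq hn ψ hψ (ih hfix)
  | spl γ q s hs n hn χ π h hγ ih =>
    intro hfin hfix
    have hq : Function.Surjective q := fun a => ⟨s a, hs a⟩
    rw [fixF_comp γ q hq] at hfix
    have hA := Finite.of_surjective q hq
    obtain ⟨h1, h2, h3⟩ := gal_of_fixR hfix
    obtain ⟨m, φ, hφ⟩ := h.exists_ker hn hs
    exact wa_dblN hstar hQE γ h3 q hq hn φ hφ (ih hfix)

end NF83
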