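import Pool.Agent.H.MP_83e36b_nt.nr.Semi

/-! The action given by a cocycle. -/

set_option autoImplicit false

open CM83 NR83

namespace NF83

section ext

variable {k K E : Type} [Field k] [Field K] [Field E] [Algebra k E] [Algebra K E] {G' : Type}
    [Group G'] {d : ℕ}

/-- the action on polynomials -/
private noncomputable def CAct_pol (ε : G' →* (E ≃ₐ[k] E)) (c : G' → Fin d → Fin d → K) (g : G') :
    MvPolynomial (Fin d) E →+* MvPolynomial (Fin d) E :=
  MvPolynomial.eval₂Hom (MvPolynomial.C.comp ((ε g : E ≃ₐ[k] E) : E →+* E))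
    (fun i => ∑ j, MvPolynomial.C (algebraMap K E (c g i j)) * MvPolynomial.X j)

private theorem CAct_C (ε : G' →* (E ≃ₐ[k] E)) (c : G' → Fin d → Fin d → K) (g : G') (a : E) :
    CAct_pol ε c g (MvPolynomial.C a) = MvPolynomial.C (ε g a) := by
  unfold CAct_pol
  rw [MvPolynomial.coe_eval₂Hom, MvPolynomial.eval₂_C]
  rfl

private theorem CAct_X (ε : G' →* (E ≃ₐ[k] E)) (c : G' → Fin d → Fin d → K) (g : G') (i : Fin d) :
    CAct_pol ε c g (MvPolynomial.X i) =
      ∑ j, MvPolynomial.C (algebraMap K E (c g i j)) * MvPolynomial.X j := by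
  unfold CAct_pol
  rw [MvPolynomial.coe_eval₂Hom, MvPolynomial.eval₂_X]

private theorem CAct_one (ε : G' →* (E ≃ₐ[k] E)) (c : G' → Fin d → Fin d → K)
    (hc : ∀ i j, c 1 i j = if i = j then 1 else 0) : CAct_pol ε c 1 = RingHom.id _ := by
  apply MvPolynomial.ringHom_ext
  · intro a
    rw [CAct_C, map_one, AlgEquiv.one_apply, RingHom.id_apply]
  · intro i
    rw [CAct_X, RingHom.id_apply]
    rw [Finset.sum_eq_single i]
    · rw [hc, if_pos rfl, map_one, map_one, one_mul]
    · intro j _ hj
      rw [hc, if_neg (Ne.symm hj), map_zero, map_zero, zero_mul]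
    · intro h
      exact absurd (Finset.mem_univ i) h

private theorem CAct_mul (a' : G' → K → K) (ε : G' →* (E ≃ₐ[k] E))
    (hε : ∀ g a, ε g (algebraMap K E a) = algebraMap K E (a' g a)) (c : G' → Fin d → Fin d → K)
    (hc : ∀ g h i l, c (g * h) i l = ∑ j, a' g (c h i j) * c g j l) (g h : G') :
    CAct_pol ε c (g * h) = (CAct_pol ε c g).comp (CAct_pol ε c h) := by
  apply MvPolynomial.ringHom_ext
  · intro a
    rw [RingHom.comp_apply, CAct_C, CAct_C, CAct_C, map_mul, AlgEquiv.mul_apply]
  · intro i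
    rw [RingHom.comp_apply, CAct_X, CAct_X, map_sum]
    have h1 : ∀ j, CAct_pol ε c g (MvPolynomial.C (algebraMap K E (c h i j)) *
        MvPolynomial.X j) =
        ∑ l, MvPolynomial.C (algebraMap K E (a' g (c h i j) * c g j l)) * MvPolynomial.X l := by
      intro j
      rw [map_mul, CAct_C, CAct_X, hε, Finset.mul_sum]
      refine Finset.sum_congr rfl fun l _ => ?_
      rw [map_mul, map_mul]
      ring
    rw [Finset.sum_congr rfl fun j _ => h1 j, Finset.sum_comm]
    refine Finset.sum_congr rfl fun l _ => ?_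
    rw [hc, map_sum, map_sum, Finset.sum_mul]

private theorem CAct_alg (K : Type) [Field K] (d : ℕ) (a : K) :
    algebraMap K (RF K d) a = algebraMap (MvPolynomial (Fin d) K) (RF K d) (MvPolynomial.C a) :=
  IsScalarTower.algebraMap_apply K (MvPolynomial (Fin d) K) (RF K d) a

end ext

/-- Proof: as `exists_act` in bc/Act.lean or `exists_semi_ext` in nr/Semi.lean (copy with their private
lemmas, names starting with `CAct_`), with `c g j i = ρ g i j`; `hc : c (g * h) j l = ∑ i, α g (c h j i) * c g i l` is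
`hm` (`Matrix.mul_apply`, `Matrix.map_apply`). -/
theorem exists_cocAct {k K L : Type} [Field k] [Field K] [Field L] [Algebra k K] [Algebra k L]
    [Algebra K L] [IsScalarTower k K L] {G : Type} [Group G] (α : G →* (K ≃ₐ[k] K))
    (δ : G →* (L ≃ₐ[k] L)) (hδ : ∀ g a, δ g (algebraMap K L a) = algebraMap K L (α g a)) {n : ℕ}
    (ρ : G → Matrix (Fin n) (Fin n) K) (h1 : ρ 1 = 1)
    (hm : ∀ g h, ρ (g * h) = ρ g * (ρ h).map (α g)) :
    ∃ ε : G →* (RF L n ≃ₐ[k] RF L n),
      (∀ g a, ε g (algebraMap L (RF L n) a) = algebraMap L (RF L n) (δ g a)) ∧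
      ∀ g j, ε g (xv L j) = ∑ i, algebraMap L (RF L n) (algebraMap K L (ρ g i j)) * xv L i := by
  classical
  obtain ⟨c, hcdef⟩ : ∃ c : G → Fin n → Fin n → K, c = fun g j i => ρ g i j := ⟨_, rfl⟩
  have hcρ : ∀ g j i, c g j i = ρ g i j := by
    intro g j i
    rw [hcdef]
  have hc1 : ∀ i j, c 1 i j = if i = j then 1 else 0 := by
    intro i j
    rw [hcρ, h1, Matrix.one_apply]
    by_cases hij : i = j
    · rw [if_pos hij, if_pos hij.symm]
    · rw [if_neg hij, if_neg (Ne.symm hij)]
  have hcm : ∀ g h i l, c (g * h) i l = ∑ j, α g (c h i j) * c g j l := by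
    intro g h i l
    rw [hcρ, hm, Matrix.mul_apply]
    refine Finset.sum_congr rfl fun j _ => ?_
    rw [Matrix.map_apply, hcρ, hcρ, mul_comm]
  let inst0 : MulSemiringAction G (MvPolynomial (Fin n) L) :=
    { smul := fun g f => CAct_pol δ c g f
      one_smul := fun f => by
        change CAct_pol δ c 1 f = f
        rw [CAct_one δ c hc1, RingHom.id_apply]
      mul_smul := fun g h f => by
        change CAct_pol δ c (g * h) f = CAct_pol δ c g (CAct_pol δ c h f)
        rw [CAct_mul (fun g a => α g a) δ hδ c hcm, RingHom.comp_apply]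
      smul_zero := fun g => map_zero (CAct_pol δ c g)
      smul_add := fun g => map_add (CAct_pol δ c g)
      smul_one := fun g => map_one (CAct_pol δ c g)
      smul_mul := fun g => map_mul (CAct_pol δ c g) }
  let inst1 : MulSemiringAction G (RF L n) :=
    IsFractionRing.mulSemiringAction G (MvPolynomial (Fin n) L) (RF L n)
  have hpol : ∀ (g : G) (f : MvPolynomial (Fin n) L),
      g • (algebraMap (MvPolynomial (Fin n) L) (RF L n) f) =
        algebraMap (MvPolynomial (Fin n) L) (RF L n) (CAct_pol δ c g f) := by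
    intro g f
    change IsFractionRing.ringEquivOfRingEquiv
      (MulSemiringAction.toRingEquiv G (MvPolynomial (Fin n) L) g) _ = _
    rw [IsFractionRing.ringEquivOfRingEquiv_algebraMap]
    rfl
  have hE : ∀ (g : G) (a : L), g • algebraMap L (RF L n) a = algebraMap L (RF L n) (δ g a) := by
    intro g a
    rw [CAct_alg, hpol, CAct_C, CAct_alg]
  have hX : ∀ (g : G) (i : Fin n), g • (xv L i : RF L n) =
      ∑ j, algebraMap L (RF L n) (algebraMap K L (c g i j)) * xv L j := by
    intro g i
    unfold xv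
    rw [hpol, CAct_X, map_sum]
    refine Finset.sum_congr rfl fun j _ => ?_
    rw [map_mul, CAct_alg]
  have hk : ∀ (g : G) (b : k), g • algebraMap k (RF L n) b = algebraMap k (RF L n) b := by
    intro g b
    rw [IsScalarTower.algebraMap_apply k L (RF L n), hE, AlgEquiv.commutes]
  have : SMulCommClass G k (RF L n) := ⟨fun g b x => by
    rw [Algebra.smul_def, Algebra.smul_def, smul_mul', hk]⟩
  obtain ⟨β', hβ'⟩ : ∃ β' : G →* (RF L n ≃ₐ[k] RF L n), ∀ g z, β' g z = g • z :=
    ⟨MulSemiringAction.toAlgAut G k (RF L n), fun g z => rfl⟩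
  refine ⟨β', fun g a => ?_, fun g j => ?_⟩
  · rw [hβ', hE]
  · rw [hβ', hX]
    refine Finset.sum_congr rfl fun i _ => ?_
    rw [hcρ]

end NF83
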