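import Mathlib

/-! Derivatives of polynomials in polynomials; relations of least degree. -/

set_option autoImplicit false

open MvPolynomial

namespace NF83

/-- the chain rule.  Proof: `MvPolynomial.induction_on` (or `Derivation` extensionality). -/
theorem pderiv_chain {F : Type} [Field F] {n r : ℕ} (f : Fin r → MvPolynomial (Fin n) F)
    (H : MvPolynomial (Fin r) F) (k : Fin n) :
    pderiv k (aeval f H) = ∑ i, aeval f (pderiv i H) * pderiv k (f i) := by
  induction H using MvPolynomial.induction_on with
  | C a =>
    rw [aeval_C, algebraMap_eq, pderiv_C]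
    symm
    apply Finset.sum_eq_zero
    intro i _
    rw [pderiv_C, map_zero, zero_mul]
  | add p q hp hq =>
    simp only [map_add, hp, hq, add_mul, Finset.sum_add_distrib]
  | mul_X p j hp =>
    rw [map_mul, aeval_X, pderiv_mul, hp]
    have h1 : ∀ i, aeval f (pderiv i (p * X j)) * pderiv k (f i) =
        aeval f (pderiv i p) * pderiv k (f i) * f j +
          (if i = j then aeval f p * pderiv k (f j) else 0) := by
      intro i
      rw [pderiv_mul, map_add, map_mul, map_mul, aeval_X]
      by_cases h : i = j
      · subst h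
        rw [pderiv_X_self, map_one, if_pos rfl]
        ring
      · rw [pderiv_X_of_ne (Ne.symm h), map_zero, if_neg h]
        ring
    rw [Finset.sum_congr rfl fun i _ => h1 i, Finset.sum_add_distrib, ← Finset.sum_mul,
      Finset.sum_ite_eq' Finset.univ j, if_pos (Finset.mem_univ j)]

/-- weighted homogeneous polynomials become homogeneous -/
private theorem Chn_hom {F : Type} [Field F] {n r : ℕ}
    {f : Fin r → MvPolynomial (Fin n) F} {d : Fin r → ℕ} (hf : ∀ i, (f i).IsHomogeneous (d i))
    {w : ℕ} {H : MvPolynomial (Fin r) F} (hH : IsWeightedHomogeneous d H w) :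
    (aeval f H).IsHomogeneous w := by
  rw [aeval_def, eval₂_eq']
  refine IsHomogeneous.sum _ _ _ fun s hs => ?_
  have h1 : w = 0 + ∑ i, d i * s i := by
    have h2 := hH (mem_support_iff.1 hs)
    rw [Finsupp.weight_apply, Finsupp.sum_fintype _ _ (by simp)] at h2
    rw [zero_add, ← h2]
    refine Finset.sum_congr rfl fun i _ => ?_
    rw [smul_eq_mul, mul_comm]
  rw [h1]
  refine IsHomogeneous.mul (isHomogeneous_C _ _) ?_
  exact IsHomogeneous.prod _ _ _ fun i _ => (hf i).pow (s i)

private theorem Chn_comp {F : Type} [Field F] {n r : ℕ}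
    {f : Fin r → MvPolynomial (Fin n) F} {d : Fin r → ℕ} (hf : ∀ i, (f i).IsHomogeneous (d i))
    (w : ℕ) (H : MvPolynomial (Fin r) F) :
    aeval f (weightedHomogeneousComponent d w H) = homogeneousComponent w (aeval f H) := by
  induction H using MvPolynomial.induction_on' with
  | monomial s a =>
    have h1 : IsWeightedHomogeneous d (monomial s a) (Finsupp.weight d s) :=
      isWeightedHomogeneous_monomial d s a rfl
    rw [homogeneousComponent_of_mem (Chn_hom hf h1)]
    split_ifs with h
    · rw [h, h1.weightedHomogeneousComponent_same]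
    · rw [h1.weightedHomogeneousComponent_ne w h, map_zero]
  | add p q hp hq => rw [map_add, map_add, hp, hq, map_add, map_add]

private theorem Chn_pd {F : Type} [Field F] {r : ℕ} {d : Fin r → ℕ} {w : ℕ}
    {H : MvPolynomial (Fin r) F} (hH : IsWeightedHomogeneous d H w) (i : Fin r) :
    IsWeightedHomogeneous d (pderiv i H) (w - d i) := by
  intro s hs
  rw [coeff_pderiv] at hs
  have h1 := hH (left_ne_zero_of_mul hs)
  rw [map_add, Finsupp.weight_single, one_smul] at h1
  omega

private theorem Chn_deg {F : Type} [Field F] {r : ℕ} {H : MvPolynomial (Fin r) F} {i : Fin r}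
    (h : pderiv i H ≠ 0) : (pderiv i H).totalDegree < H.totalDegree := by
  obtain ⟨s, hs, hs2⟩ := Finset.exists_mem_eq_sup (pderiv i H).support (support_nonempty.2 h)
    (fun s => s.sum fun _ e => e)
  have h1 : (pderiv i H).totalDegree = s.sum fun _ e => e := hs2
  rw [mem_support_iff, coeff_pderiv] at hs
  have h2 := le_totalDegree (mem_support_iff.2 (left_ne_zero_of_mul hs))
  rw [Finsupp.sum_add_index' (fun _ => rfl) (fun _ _ _ => rfl),
    Finsupp.sum_single_index rfl] at h2
  omega

private theorem Chn_const {F : Type} [Field F] [CharZero F] {r : ℕ}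
    {H : MvPolynomial (Fin r) F} (h : ∀ i, pderiv i H = 0) : H = C (coeff 0 H) := by
  ext s
  rw [coeff_C]
  split_ifs with h0
  · rw [← h0]
  · obtain ⟨i, hi⟩ : ∃ i, s i ≠ 0 := by
      by_contra hcon
      push Not at hcon
      exact h0 (Finsupp.ext fun i => (hcon i).symm)
    have h1 := congrArg (coeff (s - Finsupp.single i 1)) (h i)
    rw [coeff_pderiv, coeff_zero] at h1
    have h2 : s - Finsupp.single i 1 + Finsupp.single i 1 = s := by
      apply tsub_add_cancel_of_le
      rw [Finsupp.single_le_iff]
      omega
    rw [h2] at h1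
    exact (mul_eq_zero.1 h1).resolve_right (Nat.cast_add_one_ne_zero _)

/-- Proof: if `H ≠ 0`, `aeval f H = 0`, then the same holds for the weighted homogeneous components of
`H` for the weights `d` (`aeval f` maps a weighted homogeneous polynomial of weight `w` to a homogeneous
polynomial of degree `w`), and one of them is not zero.  Choose a weighted homogeneous `H ≠ 0` with
`aeval f H = 0` of least total degree.  The derivatives `pderiv i H` are weighted homogeneous
(`IsWeightedHomogeneous.pderiv` or directly) of smaller total degree, so if `aeval f (pderiv i H) = 0`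
then `pderiv i H = 0`.  If this holds for all `i` then `H` is a constant (characteristic `0`), so
`aeval f H = H ≠ 0`. -/
theorem exists_rel {F : Type} [Field F] [CharZero F] {n r : ℕ}
    {f : Fin r → MvPolynomial (Fin n) F} {d : Fin r → ℕ} (hf : ∀ i, (f i).IsHomogeneous (d i))
    (h : ¬ AlgebraicIndependent F f) : ∃ H : MvPolynomial (Fin r) F, aeval f H = 0 ∧
      (∃ i, aeval f (pderiv i H) ≠ 0) ∧
      ∃ e : Fin r → ℕ, ∀ i, (aeval f (pderiv i H)).IsHomogeneous (e i) := by
  rw [algebraicIndependent_iff] at h
  push Not at h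
  obtain ⟨H₀, hH₀, hne⟩ := h
  obtain ⟨s, hs⟩ := ne_zero_iff.1 hne
  have key : ∀ (m : ℕ) (H : MvPolynomial (Fin r) F) (w : ℕ), H.totalDegree = m → H ≠ 0 →
      aeval f H = 0 → IsWeightedHomogeneous d H w →
      ∃ H : MvPolynomial (Fin r) F, aeval f H = 0 ∧ (∃ i, aeval f (pderiv i H) ≠ 0) ∧
        ∃ e : Fin r → ℕ, ∀ i, (aeval f (pderiv i H)).IsHomogeneous (e i) := by
    intro m
    induction m using Nat.strong_induction_on with
    | _ m ih =>
      intro H w hm h0 hz hw
      by_cases hc : ∃ i, aeval f (pderiv i H) ≠ 0
      · exact ⟨H, hz, hc, fun i => w - d i, fun i => Chn_hom hf (Chn_pd hw i)⟩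
      · push Not at hc
        by_cases hp : ∀ i, pderiv i H = 0
        · exfalso
          have h1 := Chn_const hp
          rw [h1, aeval_C, algebraMap_eq, C_eq_zero] at hz
          rw [hz, C_0] at h1
          exact h0 h1
        · push Not at hp
          obtain ⟨i, hi⟩ := hp
          exact ih _ (hm ▸ Chn_deg hi) (pderiv i H) (w - d i) rfl hi (hc i) (Chn_pd hw i)
  refine key _ (weightedHomogeneousComponent d (Finsupp.weight d s) H₀) (Finsupp.weight d s) rfl
    ?_ ?_ (weightedHomogeneousComponent_isWeightedHomogeneous _ _)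
  · intro h1
    have h2 := congrArg (coeff s) h1
    rw [coeff_weightedHomogeneousComponent, if_pos rfl, coeff_zero] at h2
    exact hs h2
  · rw [Chn_comp hf, hH₀, map_zero]

end NF83
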