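import Pool.Agent.H.MP_83e36b_nt.rr.Rey

/-! Generation of the ring of invariants. -/

set_option autoImplicit false

open MvPolynomial

namespace NF83

variable {F : Type} [Field F] {n : ℕ} {G : Type} [Group G] {τ : G → F →+* F}
  {σ : G → MvPolynomial (Fin n) F →+* MvPolynomial (Fin n) F}

private theorem Gen_hc {f : MvPolynomial (Fin n) F} {e : ℕ} (hf : f.IsHomogeneous e)
    (c : MvPolynomial (Fin n) F) (m : ℕ) :
    ∃ c' : MvPolynomial (Fin n) F, c'.IsHomogeneous (m - e) ∧
      homogeneousComponent m (c * f) = c' * f := by
  classical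
  refine ⟨∑ j ∈ Finset.range (c.totalDegree + 1),
    if m = j + e then homogeneousComponent j c else 0, ?_, ?_⟩
  · refine IsHomogeneous.sum _ _ _ fun j _ => ?_
    by_cases hj : m = j + e
    · rw [if_pos hj]
      have h1 : m - e = j := by omega
      rw [h1]
      exact homogeneousComponent_isHomogeneous j c
    · rw [if_neg hj]
      exact isHomogeneous_zero _ _ _
  · conv_lhs => rw [← sum_homogeneousComponent c]
    rw [Finset.sum_mul, map_sum, Finset.sum_mul]
    refine Finset.sum_congr rfl fun j _ => ?_
    rw [homogeneousComponent_of_mem ((homogeneousComponent_isHomogeneous j c).mul hf)]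
    by_cases hj : m = j + e
    · rw [if_pos hj, if_pos hj]
    · rw [if_neg hj, if_neg hj, zero_mul]

private theorem Gen_hom [CharZero F] [Finite G] (h : GAct τ σ) {r : ℕ}
    {f : Fin r → MvPolynomial (Fin n) F} {d : Fin r → ℕ} (hg : Gens τ σ f d) (m : ℕ) :
    ∀ p : MvPolynomial (Fin n) F, p.IsHomogeneous m → InvN τ σ p →
      p ∈ Algebra.adjoin F (Set.range f) := by
  obtain ⟨R, hadd, hinv, hfix, hmul, hhom, -⟩ := exists_rey (τ := τ) (σ := σ) h
  induction m using Nat.strong_induction_on with
  | _ m ih =>
    intro p hpm hp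
    rcases Nat.eq_zero_or_pos m with hm | hm
    · subst hm
      rw [← homogeneousComponent_eq_self hpm, homogeneousComponent_zero]
      exact Subalgebra.algebraMap_mem _ (coeff 0 p)
    · have hid : p ∈ idN τ σ := Ideal.subset_span ⟨hp, m, hm, hpm⟩
      rw [hg.span, Ideal.mem_span_range_iff_exists_fun] at hid
      obtain ⟨c, hc⟩ := hid
      choose c' hc1 hc2 using fun i => Gen_hc (hg.hom i) (c i) m
      have h1 : p = ∑ i, c' i * f i := by
        rw [← homogeneousComponent_eq_self hpm, ← hc, map_sum]
        exact Finset.sum_congr rfl fun i _ => hc2 i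
      have hR : ∀ s : Finset (Fin r), R (∑ i ∈ s, c' i * f i) = ∑ i ∈ s, f i * R (c' i) := by
        classical
        intro s
        induction s using Finset.induction_on with
        | empty =>
          rw [Finset.sum_empty, Finset.sum_empty]
          have h2 := hadd 0 0
          rw [add_zero] at h2
          exact left_eq_add.1 h2
        | insert i s hi ih2 =>
          rw [Finset.sum_insert hi, Finset.sum_insert hi, hadd, ih2, mul_comm (c' i),
            hmul _ _ (hg.inv i).invN]
      rw [← hfix p hp, h1, hR]
      refine Subalgebra.sum_mem _ fun i _ => Subalgebra.mul_mem _ (Algebra.subset_adjoin ⟨i, rfl⟩) ?_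
      have h2 := hg.pos i
      exact ih (m - d i) (by omega) _ (hhom _ _ (hc1 i)) (hinv _)

/-- Proof: `p` is the sum of its homogeneous components, which are invariants (`InvN.hcomp`); so let `p`
be homogeneous of degree `m`, induction on `m` (strong).  `m = 0`: a constant.  `m > 0`: `p ∈ idN`, so
`p = ∑ f i * g i` (`hg.span`), take the component of degree `m`: we may suppose `g i` homogeneous of degree
`m - d i` (or `0` if `m < d i`); apply the mean value `R`: `p = ∑ f i * R (g i)`, and `R (g i)` is an
invariant, homogeneous of degree `m - d i < m`. -/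
theorem gens_gen [CharZero F] [Finite G] (h : GAct τ σ) {r : ℕ}
    {f : Fin r → MvPolynomial (Fin n) F} {d : Fin r → ℕ} (hg : Gens τ σ f d)
    {p : MvPolynomial (Fin n) F} (hp : InvN τ σ p) : p ∈ Algebra.adjoin F (Set.range f) := by
  rw [← sum_homogeneousComponent p]
  exact Subalgebra.sum_mem _ fun i _ =>
    Gen_hom h hg i _ (homogeneousComponent_isHomogeneous i p) (hp.hcomp h i)

end NF83
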