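import Pool.Agent.H.MP_83e36b_nt.rr.LemA
import Pool.Agent.H.MP_83e36b_nt.rr.Chn

/-! Algebraic independence of a minimal system of generators. -/

set_option autoImplicit false

open MvPolynomial

namespace NF83

variable {F : Type} [Field F] {n : ℕ} {G : Type} [Group G] {τ : G → F →+* F}
  {σ : G → MvPolynomial (Fin n) F →+* MvPolynomial (Fin n) F}

/-- polynomials with constant coefficients in invariants are invariants of the kernel -/
private theorem Ind_aeval (h : GAct τ σ) {r : ℕ} {f : Fin r → MvPolynomial (Fin n) F}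
    (hf : ∀ i, InvG σ (f i)) (P : MvPolynomial (Fin r) F) : InvN τ σ (aeval f P) := by
  intro g hg
  induction P using MvPolynomial.induction_on with
  | C a =>
    rw [aeval_C, MvPolynomial.algebraMap_eq, h.coeff, hg, RingHom.id_apply]
  | add p q hp hq => rw [map_add, map_add, hp, hq]
  | mul_X p i hp => rw [map_mul, map_mul, hp, aeval_X, hf i g]

/-- the components of a multiple of a homogeneous polynomial -/
private theorem Ind_comp {p : MvPolynomial (Fin n) F} {e : ℕ} (hp : p.IsHomogeneous e)
    (q : MvPolynomial (Fin n) F) (m : ℕ) :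
    homogeneousComponent m (q * p) = ∑ t ∈ Finset.range (q.totalDegree + 1),
      if m = t + e then homogeneousComponent t q * p else 0 := by
  conv_lhs => rw [← sum_homogeneousComponent q, Finset.sum_mul, map_sum]
  refine Finset.sum_congr rfl fun t _ => ?_
  exact homogeneousComponent_of_mem ((homogeneousComponent_isHomogeneous t q).mul hp)

private theorem Ind_mem {p : MvPolynomial (Fin n) F} {e : ℕ} (hp : p.IsHomogeneous e)
    (q : MvPolynomial (Fin n) F) (m : ℕ) {J : Ideal (MvPolynomial (Fin n) F)} (hJ : p ∈ J) :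
    homogeneousComponent m (q * p) ∈ J := by
  rw [Ind_comp hp]
  refine J.sum_mem fun t _ => ?_
  split_ifs
  · exact J.mul_mem_left _ hJ
  · exact J.zero_mem

private theorem Ind_zero {p : MvPolynomial (Fin n) F} {e : ℕ} (hp : p.IsHomogeneous e)
    {q : MvPolynomial (Fin n) F} (hq : coeff 0 q = 0) :
    homogeneousComponent e (q * p) = 0 := by
  rw [Ind_comp hp]
  refine Finset.sum_eq_zero fun t _ => ?_
  split_ifs with h
  · have ht : t = 0 := by omega
    subst ht
    rw [homogeneousComponent_zero, hq, C_0, zero_mul]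
  · rfl

/-- Proof: suppose not; `H` as in `exists_rel`, `h i = aeval f (pderiv i H)`: invariants of the kernel
(polynomials in the invariants `f i` with constant coefficients), homogeneous, not all `0`.  Choose a
`M : Finset (Fin r)` of least cardinality such that every `h j` is a combination `∑_{i ∈ M} c i * h i` with
`InvN` coefficients (`Finset.univ` is one); for `j ∈ M` take `c` = the indicator of `j`; for `j ∉ M` fix
the coefficients `a j i`.  `M` is not empty; fix `i0 ∈ M`; `h i0` is not a combination of the other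
`h i`, `i ∈ M` (else `M.erase i0` has the property).  For every variable `k`, by `pderiv_chain`,
`0 = ∑_i h i * pderiv k (f i) = ∑_{i ∈ M} h i * g k i`, `g k i = pderiv k (f i) + ∑_{j ∉ M} a j i *
pderiv k (f j)`.  By `lemA2`, `g k i0 ∈ idN`.  Multiply by `X k` and sum over `k` (Euler:
`IsHomogeneous.sum_X_mul_pderiv`): `d i0 * f i0 + ∑_{j ∉ M} a j i0 * d j * f j = ∑_k X k * g k i0`, and this
is `∑_i b i * f i` with `b i` in the ideal of the variables (constant coefficient `0`) by `hg.span`.  Take
the component of degree `d i0`: the component of `b i0 * f i0` vanishes; so `d i0 * f i0` is a combination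
of the `f j`, `j ≠ i0`, a contradiction to `hg.min i0`. -/
theorem gens_ind [CharZero F] [Finite G] (h : GAct τ σ) (hgen : GenRfl τ σ) {r : ℕ}
    {f : Fin r → MvPolynomial (Fin n) F} {d : Fin r → ℕ} (hg : Gens τ σ f d) :
    AlgebraicIndependent F f := by
  classical
  by_contra hne
  obtain ⟨H, hH0, ⟨i1, hi1⟩, e, he⟩ := exists_rel hg.hom hne
  obtain ⟨hh, hhdef⟩ : ∃ hh : Fin r → MvPolynomial (Fin n) F, hh = fun i => aeval f (pderiv i H) :=
    ⟨_, rfl⟩
  have hhi : ∀ i, hh i = aeval f (pderiv i H) := fun i => by rw [hhdef]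
  have hinv : ∀ i, InvN τ σ (hh i) := fun i => by
    rw [hhi]
    exact Ind_aeval h hg.inv _
  have hhom : ∀ i, (hh i).IsHomogeneous (e i) := fun i => by
    rw [hhi]
    exact he i
  have inv_zero : InvN τ σ (0 : MvPolynomial (Fin n) F) := fun g _ => map_zero _
  have inv_one : InvN τ σ (1 : MvPolynomial (Fin n) F) := fun g _ => map_one _
  have inv_add : ∀ a b : MvPolynomial (Fin n) F, InvN τ σ a → InvN τ σ b → InvN τ σ (a + b) :=
    fun a b ha hb g hgg => by rw [map_add, ha g hgg, hb g hgg]
  have inv_mul : ∀ a b : MvPolynomial (Fin n) F, InvN τ σ a → InvN τ σ b → InvN τ σ (a * b) :=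
    fun a b ha hb g hgg => by rw [map_mul, ha g hgg, hb g hgg]
  -- a least set of generators
  obtain ⟨P, hPdef⟩ : ∃ P : Finset (Fin r) → Prop, P = fun M => ∀ j, ∃ c : Fin r →
      MvPolynomial (Fin n) F, (∀ i, InvN τ σ (c i)) ∧ hh j = ∑ i ∈ M, c i * hh i := ⟨_, rfl⟩
  have hPi : ∀ M, P M ↔ ∀ j, ∃ c : Fin r →
      MvPolynomial (Fin n) F, (∀ i, InvN τ σ (c i)) ∧ hh j = ∑ i ∈ M, c i * hh i := fun M => by
    rw [hPdef]
  have hPu : P Finset.univ := by
    rw [hPi]
    intro j
    refine ⟨fun i => if i = j then 1 else 0, fun i => ?_, ?_⟩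
    · show InvN τ σ (if i = j then 1 else 0)
      split_ifs
      · exact inv_one
      · exact inv_zero
    · simp
  obtain ⟨M, hM, hMmin⟩ := Finset.exists_min_image (Finset.univ.filter P) Finset.card
    ⟨Finset.univ, Finset.mem_filter.2 ⟨Finset.mem_univ _, hPu⟩⟩
  have hPM : P M := (Finset.mem_filter.1 hM).2
  have hmin : ∀ M' : Finset (Fin r), P M' → M.card ≤ M'.card := fun M' h' =>
    hMmin M' (Finset.mem_filter.2 ⟨Finset.mem_univ _, h'⟩)
  have hMne : M.Nonempty := by
    rw [Finset.nonempty_iff_ne_empty]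
    rintro rfl
    obtain ⟨c, -, hc⟩ := (hPi ∅).1 hPM i1
    rw [Finset.sum_empty, hhi] at hc
    exact hi1 hc
  obtain ⟨i0, hi0⟩ := hMne
  have hnot : ¬ ∃ c : Fin r → MvPolynomial (Fin n) F, (∀ i, InvN τ σ (c i)) ∧
      hh i0 = ∑ i ∈ M.erase i0, c i * hh i := by
    rintro ⟨c, hc, hc'⟩
    have hP' : P (M.erase i0) := by
      rw [hPi]
      intro j
      obtain ⟨a, ha, ha'⟩ := (hPi M).1 hPM j
      refine ⟨fun i => a i0 * c i + a i, fun i => inv_add _ _ (inv_mul _ _ (ha _) (hc _)) (ha _), ?_⟩
      rw [ha', ← Finset.add_sum_erase M _ hi0]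
      simp only [add_mul, Finset.sum_add_distrib]
      congr 1
      conv_lhs => rw [hc']
      rw [Finset.mul_sum]
      exact Finset.sum_congr rfl fun i _ => by ring
    have h1 := hmin _ hP'
    have h2 := Finset.card_erase_lt_of_mem hi0
    omega
  -- the coefficients
  have hcoef : ∀ j, ∃ c : Fin r → MvPolynomial (Fin n) F, (∀ i, InvN τ σ (c i)) ∧
      hh j = ∑ i ∈ M, c i * hh i ∧ (j ∈ M → ∀ i, c i = if i = j then 1 else 0) := by
    intro j
    by_cases hj : j ∈ M
    · refine ⟨fun i => if i = j then 1 else 0, fun i => ?_, ?_, fun _ i => rfl⟩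
      · show InvN τ σ (if i = j then 1 else 0)
        split_ifs
        · exact inv_one
        · exact inv_zero
      · simp [hj]
    · obtain ⟨c, hc, hc'⟩ := (hPi M).1 hPM j
      exact ⟨c, hc, hc', fun h => absurd h hj⟩
  choose a ha ha' ha'' using hcoef
  -- the relations between the derivatives
  have hrel : ∀ k : Fin n, ∑ i ∈ M, hh i * ∑ j, a j i * pderiv k (f j) = 0 := by
    intro k
    have h1 := pderiv_chain f H k
    rw [hH0, map_zero] at h1
    calc ∑ i ∈ M, hh i * ∑ j, a j i * pderiv k (f j)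
        = ∑ j, (∑ i ∈ M, a j i * hh i) * pderiv k (f j) := by
          simp only [Finset.mul_sum, Finset.sum_mul]
          rw [Finset.sum_comm]
          exact Finset.sum_congr rfl fun j _ => Finset.sum_congr rfl fun i _ => by ring
      _ = ∑ j, aeval f (pderiv j H) * pderiv k (f j) :=
          Finset.sum_congr rfl fun j _ => by rw [← ha' j, hhi]
      _ = 0 := h1.symm
  have hmem : ∀ k : Fin n, ∑ j, a j i0 * pderiv k (f j) ∈ Ideal.span (Set.range f) := by
    intro k
    rw [← hg.span]
    exact lemA2 h hgen hi0 (fun i _ => hinv i) e (fun i _ => hhom i) hnot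
      (fun i => ∑ j, a j i * pderiv k (f j)) (hrel k)
  have hcs : ∀ k : Fin n, ∃ c : Fin r → MvPolynomial (Fin n) F,
      ∑ i, c i * f i = ∑ j, a j i0 * pderiv k (f j) := fun k =>
    Ideal.mem_span_range_iff_exists_fun.1 (hmem k)
  choose b hb using hcs
  have hT : ∑ i, (∑ k, X k * b k i) * f i = ∑ j, a j i0 * (d j • f j) := by
    calc ∑ i, (∑ k, X k * b k i) * f i = ∑ k, X k * ∑ i, b k i * f i := by
          simp only [Finset.mul_sum, Finset.sum_mul]
          rw [Finset.sum_comm]
          exact Finset.sum_congr rfl fun j _ => Finset.sum_congr rfl fun i _ => by ring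
      _ = ∑ k, X k * ∑ j, a j i0 * pderiv k (f j) :=
          Finset.sum_congr rfl fun k _ => by rw [hb]
      _ = ∑ j, a j i0 * ∑ k, X k * pderiv k (f j) := by
          simp only [Finset.mul_sum]
          rw [Finset.sum_comm]
          exact Finset.sum_congr rfl fun j _ => Finset.sum_congr rfl fun i _ => by ring
      _ = ∑ j, a j i0 * (d j • f j) :=
          Finset.sum_congr rfl fun j _ => by rw [(hg.hom j).sum_X_mul_pderiv]
  -- the component of degree `d i0`
  have hJ : ∀ j, j ≠ i0 → f j ∈ Ideal.span (f '' {j | j ≠ i0}) := fun j hj =>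
    Ideal.subset_span ⟨j, hj, rfl⟩
  have hL : homogeneousComponent (d i0) (∑ i, (∑ k, X k * b k i) * f i) ∈
      Ideal.span (f '' {j | j ≠ i0}) := by
    rw [map_sum]
    refine Ideal.sum_mem _ fun i _ => ?_
    by_cases hi : i = i0
    · subst hi
      rw [Ind_zero (hg.hom i)]
      · exact Ideal.zero_mem _
      · rw [← constantCoeff_eq, map_sum]
        refine Finset.sum_eq_zero fun k _ => ?_
        rw [map_mul, constantCoeff_X, zero_mul]
    · exact Ind_mem (hg.hom i) _ _ (hJ i hi)
  rw [hT, map_sum, ← Finset.add_sum_erase _ _ (Finset.mem_univ i0)] at hL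
  have hR : ∑ j ∈ Finset.univ.erase i0, homogeneousComponent (d i0) (a j i0 * (d j • f j)) ∈
      Ideal.span (f '' {j | j ≠ i0}) := by
    refine Ideal.sum_mem _ fun j hj => ?_
    refine Ind_mem (e := d j) ?_ _ _ ?_
    · rw [nsmul_eq_mul, ← map_natCast (C : F →+* MvPolynomial (Fin n) F)]
      have := (isHomogeneous_C (Fin n) ((d j : ℕ) : F)).mul (hg.hom j)
      rwa [zero_add] at this
    · rw [nsmul_eq_mul]
      exact Ideal.mul_mem_left _ _ (hJ j (Finset.ne_of_mem_erase hj))
  have h3 := (Ideal.add_mem_iff_left _ hR).1 hL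
  rw [ha'' i0 hi0 i0, if_pos rfl, one_mul] at h3
  have h4 : homogeneousComponent (d i0) (d i0 • f i0) = d i0 • f i0 := by
    rw [map_nsmul, homogeneousComponent_eq_self (hg.hom i0)]
  rw [h4] at h3
  apply hg.min i0
  have h5 : (C ((d i0 : F)⁻¹) : MvPolynomial (Fin n) F) * (d i0 • f i0) = f i0 := by
    have hd : (d i0 : F) ≠ 0 := Nat.cast_ne_zero.2 (hg.pos i0).ne'
    rw [nsmul_eq_mul, ← map_natCast (C : F →+* MvPolynomial (Fin n) F), ← mul_assoc, ← C_mul,
      inv_mul_cancel₀ hd, C_1, one_mul]
  rw [← h5]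
  exact Ideal.mul_mem_left _ _ h3

end NF83
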