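import Pool.Agent.H.MP_83e36b_nt.rr.Dsc
import Pool.Agent.H.MP_83e36b_nt.rr.Ind
import Pool.Agent.H.MP_83e36b_nt.rr.Gen

/-! The theorem of Chevalley, Shephard and Todd for semilinear actions. -/

set_option autoImplicit false

open MvPolynomial

namespace NF83

variable {F : Type} [Field F] {n : ℕ} {G : Type} [Group G] {τ : G → F →+* F}
  {σ : G → MvPolynomial (Fin n) F →+* MvPolynomial (Fin n) F}

theorem cst [CharZero F] [Finite G] (h : GAct τ σ) (hgen : GenRfl τ σ) :
    ∃ (r : ℕ) (f : Fin r → MvPolynomial (Fin n) F), (∀ i, InvG σ (f i)) ∧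
      AlgebraicIndependent F f ∧ ∀ p, InvN τ σ p → p ∈ Algebra.adjoin F (Set.range f) := by
  obtain ⟨r, f, d, hg⟩ := exists_gens h
  exact ⟨r, f, hg.inv, gens_ind h hgen hg, fun p hp => gens_gen h hg hp⟩

end NF83
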