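import Mathlib

/-! Graded semilinear actions of groups on rings of polynomials. -/

set_option autoImplicit false

open MvPolynomial

namespace NF83

variable {F : Type} [Field F] {n : ℕ} {G : Type} [Group G]

/-- `σ` is an action of `G` on the ring `F[X_1, ..., X_n]`, semilinear over the action `τ` on `F`, which
maps the variables to linear forms -/
structure GAct (τ : G → F →+* F)
    (σ : G → MvPolynomial (Fin n) F →+* MvPolynomial (Fin n) F) : Prop where
  τ1 : τ 1 = RingHom.id F
  τm : ∀ g h, τ (g * h) = (τ g).comp (τ h)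
  σ1 : σ 1 = RingHom.id _
  σm : ∀ g h, σ (g * h) = (σ g).comp (σ h)
  coeff : ∀ g a, σ g (C a) = C (τ g a)
  lin : ∀ g j, (σ g (X j)).IsHomogeneous 1

/-- invariants of the elements of `G` which act trivially on `F` -/
def InvN (τ : G → F →+* F) (σ : G → MvPolynomial (Fin n) F →+* MvPolynomial (Fin n) F)
    (f : MvPolynomial (Fin n) F) : Prop := ∀ g, τ g = RingHom.id F → σ g f = f

/-- invariants of the group -/
def InvG (σ : G → MvPolynomial (Fin n) F →+* MvPolynomial (Fin n) F)
    (f : MvPolynomial (Fin n) F) : Prop := ∀ g, σ g f = f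

/-- `s` acts on the variables as a pseudo-reflection or trivially -/
def IsRfl (σ : G → MvPolynomial (Fin n) F →+* MvPolynomial (Fin n) F) (s : G) : Prop :=
  ∃ (l : MvPolynomial (Fin n) F) (w : Fin n → F), l.IsHomogeneous 1 ∧
    ∀ j, σ s (X j) = X j + C (w j) * l

/-- the group of the elements which act trivially on `F` is generated by pseudo-reflections -/
def GenRfl (τ : G → F →+* F) (σ : G → MvPolynomial (Fin n) F →+* MvPolynomial (Fin n) F) : Prop :=
  ∀ H : Subgroup G, (∀ s, τ s = RingHom.id F → IsRfl σ s → s ∈ H) →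
    ∀ g, τ g = RingHom.id F → g ∈ H

/-- the ideal generated by the homogeneous invariants of positive degree -/
noncomputable def idN (τ : G → F →+* F)
    (σ : G → MvPolynomial (Fin n) F →+* MvPolynomial (Fin n) F) : Ideal (MvPolynomial (Fin n) F) :=
  Ideal.span {p | InvN τ σ p ∧ ∃ d, 0 < d ∧ p.IsHomogeneous d}

/-- `f` is a minimal system of homogeneous invariants of positive degrees `d` which generates `idN` -/
structure Gens (τ : G → F →+* F) (σ : G → MvPolynomial (Fin n) F →+* MvPolynomial (Fin n) F) {r : ℕ}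
    (f : Fin r → MvPolynomial (Fin n) F) (d : Fin r → ℕ) : Prop where
  inv : ∀ i, InvG σ (f i)
  pos : ∀ i, 0 < d i
  hom : ∀ i, (f i).IsHomogeneous (d i)
  span : idN τ σ = Ideal.span (Set.range f)
  min : ∀ i, f i ∉ Ideal.span (f '' {j | j ≠ i})

end NF83
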