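import Pool.Agent.H.MP_83e36b_nt.rr.Hm

/-! The divided difference of a pseudo-reflection. -/

set_option autoImplicit false

open MvPolynomial

namespace NF83

variable {F : Type} [Field F] {n : ℕ} {G : Type} [Group G] {τ : G → F →+* F}
  {σ : G → MvPolynomial (Fin n) F →+* MvPolynomial (Fin n) F}

private theorem Dlt_comp {l : MvPolynomial (Fin n) F} (hl : l.IsHomogeneous 1)
    (q : MvPolynomial (Fin n) F) (e : ℕ) :
    homogeneousComponent (e + 1) (l * q) = l * homogeneousComponent e q := by
  have h1 : ∀ i, homogeneousComponent (e + 1) (l * homogeneousComponent i q) =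
      if i = e then l * homogeneousComponent e q else 0 := by
    intro i
    have h2 : (l * homogeneousComponent i q).IsHomogeneous (1 + i) :=
      hl.mul (homogeneousComponent_isHomogeneous i q)
    rw [homogeneousComponent_of_mem h2]
    by_cases h3 : i = e
    · rw [h3, if_pos (by omega), if_pos rfl]
    · rw [if_neg (by omega), if_neg h3]
  conv_lhs => rw [← sum_homogeneousComponent q]
  rw [Finset.mul_sum, map_sum, Finset.sum_congr rfl fun i _ => h1 i, Finset.sum_ite_eq']
  by_cases h4 : e ∈ Finset.range (q.totalDegree + 1)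
  · rw [if_pos h4]
  · rw [if_neg h4, homogeneousComponent_eq_zero, mul_zero]
    rw [Finset.mem_range] at h4
    omega

private theorem Dlt_hom {l : MvPolynomial (Fin n) F} (hl : l.IsHomogeneous 1) (hl0 : l ≠ 0)
    {q : MvPolynomial (Fin n) F} {d : ℕ} (h : (l * q).IsHomogeneous (d + 1)) :
    q.IsHomogeneous d := by
  have h1 : ∀ e, e ≠ d → homogeneousComponent e q = 0 := by
    intro e he
    have h2 := Dlt_comp hl q e
    rw [homogeneousComponent_of_mem h, if_neg (by omega)] at h2
    exact (mul_eq_zero.1 h2.symm).resolve_left hl0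
  rw [← sum_homogeneousComponent q]
  refine IsHomogeneous.sum _ _ _ fun i _ => ?_
  by_cases hi : i = d
  · rw [hi]
    exact homogeneousComponent_isHomogeneous d q
  · rw [h1 i hi]
    exact isHomogeneous_zero _ _ _

/-- Proof: let `l`, `w` be as in `IsRfl`.  If `l = 0` then `σ s` is the identity (`ringHom_ext`), take
`Δ = 0`.  If `l ≠ 0`: the ring homomorphisms `mk ∘ σ s` and `mk` to the quotient by `(l)` agree on the
constants and on the variables, so `l` divides `σ s f - f` for all `f`; `Δ f` the quotient (unique, the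
ring is a domain).  `Δ (f * g)`: cancel `l`.  Degrees: `l * Δ f = σ s f - f` is homogeneous of degree
`d + 1` (`GAct.homog`); the component of degree `e + 1` of `l * Δ f` is `l` times the component of degree
`e` of `Δ f`; so the components of `Δ f` of degree `e ≠ d` vanish.  Degree `0`: `f` is a constant. -/
theorem exists_delta (h : GAct τ σ) {s : G} (hs : IsRfl σ s) (hτ : τ s = RingHom.id F) :
    ∃ (l : MvPolynomial (Fin n) F) (Δ : MvPolynomial (Fin n) F → MvPolynomial (Fin n) F),
      (∀ f, σ s f = f + l * Δ f) ∧ (∀ f g, Δ (f + g) = Δ f + Δ g) ∧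
      (∀ f g, σ s f = f → Δ (f * g) = f * Δ g) ∧
      (∀ f d, f.IsHomogeneous (d + 1) → (Δ f).IsHomogeneous d) ∧
      ∀ f, f.IsHomogeneous 0 → Δ f = 0 := by
  obtain ⟨l, w, hl, hw⟩ := hs
  have hC : ∀ a, σ s (C a) = C a := fun a => by rw [h.coeff, hτ, RingHom.id_apply]
  have hdvd : ∀ f, l ∣ σ s f - f := by
    intro f
    induction f using MvPolynomial.induction_on with
    | C a => rw [hC, sub_self]; exact dvd_zero _
    | add p q hp hq =>
      have e : σ s (p + q) - (p + q) = (σ s p - p) + (σ s q - q) := by
        rw [map_add]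
        ring
      rw [e]
      exact dvd_add hp hq
    | mul_X p j hp =>
      have e : σ s (p * X j) - p * X j = (σ s p - p) * X j + (σ s p * C (w j)) * l := by
        rw [map_mul, hw]
        ring
      rw [e]
      exact dvd_add (Dvd.dvd.mul_right hp _) (Dvd.intro_left _ rfl)
  by_cases hl0 : l = 0
  · have hid : ∀ f, σ s f = f := fun f => by
      have h1 := hdvd f
      rw [hl0, zero_dvd_iff] at h1
      exact sub_eq_zero.1 h1
    exact ⟨l, fun _ => 0, fun f => by rw [mul_zero, add_zero, hid], fun _ _ => (add_zero 0).symm,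
      fun f _ _ => (mul_zero f).symm, fun _ d _ => isHomogeneous_zero _ _ _, fun _ _ => rfl⟩
  · choose Δ hΔ using hdvd
    have hσ : ∀ f, σ s f = f + l * Δ f := fun f => by rw [← hΔ]; ring
    refine ⟨l, Δ, hσ, fun f g => ?_, fun f g hf => ?_, fun f d hf => ?_, fun f hf => ?_⟩
    · apply mul_left_cancel₀ hl0
      rw [← hΔ, map_add, mul_add, ← hΔ, ← hΔ]
      ring
    · apply mul_left_cancel₀ hl0
      rw [← hΔ, map_mul, hf, mul_left_comm, ← hΔ]
      ring
    · apply Dlt_hom hl hl0
      rw [← hΔ]
      exact (h.homog hf s).sub hf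
    · apply mul_left_cancel₀ hl0
      have h1 : f = C (coeff 0 f) := by
        rw [← homogeneousComponent_zero, homogeneousComponent_of_mem hf, if_pos rfl]
      rw [← hΔ, h1, hC, sub_self, mul_zero]

end NF83
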