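import Mathlib

/-! Dual systems for a finite group of automorphisms of a field. -/

set_option autoImplicit false

namespace NF83

private def DualRep {F : Type} [Field F] {G : Type} (τ : G → F →+* F) (φ : G → F) : Prop :=
  ∃ (ι : Type) (_ : Fintype ι) (b c : ι → F), ∀ g, φ g = ∑ i, b i * τ g (c i)

private theorem dual_one {F : Type} [Field F] {G : Type} (τ : G → F →+* F) :
    DualRep τ (fun _ => 1) :=
  ⟨Unit, inferInstance, fun _ => 1, fun _ => 1, fun g => by simp⟩

private theorem dual_mul {F : Type} [Field F] {G : Type} (τ : G → F →+* F) {φ ψ : G → F}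
    (h1 : DualRep τ φ) (h2 : DualRep τ ψ) : DualRep τ (fun g => φ g * ψ g) := by
  obtain ⟨ι, _, b, c, h⟩ := h1
  obtain ⟨κ, _, b', c', h'⟩ := h2
  refine ⟨ι × κ, inferInstance, fun x => b x.1 * b' x.2, fun x => c x.1 * c' x.2, fun g => ?_⟩
  show φ g * ψ g = _
  rw [h g, h' g, Finset.sum_mul_sum, Fintype.sum_prod_type]
  refine Finset.sum_congr rfl fun i _ => Finset.sum_congr rfl fun j _ => ?_
  simp only [map_mul]
  ring

private theorem dual_sep {F : Type} [Field F] {G : Type} (τ : G → F →+* F) (x : G)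
    (hx : τ x ≠ RingHom.id F) :
    ∃ φ : G → F, DualRep τ φ ∧ (∀ g, τ g = RingHom.id F → φ g = 1) ∧ φ x = 0 := by
  have hc : ∃ c, τ x c ≠ c := by
    by_contra hcon
    push Not at hcon
    exact hx (RingHom.ext fun y => by simpa using hcon y)
  obtain ⟨c, hc⟩ := hc
  have hne : c - τ x c ≠ 0 := sub_ne_zero.2 (Ne.symm hc)
  refine ⟨fun g => (τ g c - τ x c) * (c - τ x c)⁻¹, ?_, ?_, ?_⟩
  · refine ⟨Bool, inferInstance,
      fun i => if i then (c - τ x c)⁻¹ else -(τ x c) * (c - τ x c)⁻¹,
      fun i => if i then c else 1, fun g => ?_⟩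
    rw [Fintype.sum_bool]
    simp only [if_true, Bool.false_eq_true, if_false, map_one]
    ring
  · intro g hg
    simp only [hg, RingHom.id_apply]
    exact mul_inv_cancel₀ hne
  · simp

/-- Proof: the functions `φ : G → F` of the form `φ g = ∑ b i * τ g (c i)` form a subring `Φ` of
`G → F` (products: `∑ b i b' j * τ g (c i * c' j)`) which contains the constants (`c = 1`).  For `x` with
`τ x ≠ id` choose `c` with `τ x c ≠ c`; the function `φ_x g = (τ g c - τ x c) / (c - τ x c)` is in `Φ`, is `1` if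
`τ g = id` and `0` if `τ g = τ x`.  Take the product of the `φ_x` over the (finitely many) `x ∈ G` with
`τ x ≠ id`. -/
theorem exists_dual {F : Type} [Field F] {G : Type} [Finite G] (τ : G → F →+* F) :
    ∃ (m : ℕ) (b c : Fin m → F), ∀ g, (τ g = RingHom.id F → ∑ i, b i * τ g (c i) = 1) ∧
      (τ g ≠ RingHom.id F → ∑ i, b i * τ g (c i) = 0) := by
  classical
  have _inst := Fintype.ofFinite G
  have key : ∀ S : Finset G, (∀ x ∈ S, τ x ≠ RingHom.id F) →
      ∃ φ : G → F, DualRep τ φ ∧ (∀ g, τ g = RingHom.id F → φ g = 1) ∧ ∀ x ∈ S, φ x = 0 := by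
    intro S
    induction S using Finset.induction_on with
    | empty =>
      intro _
      exact ⟨fun _ => 1, dual_one τ, fun _ _ => rfl, fun x hx => absurd hx (Finset.notMem_empty x)⟩
    | insert a S ha ih =>
      intro hS
      obtain ⟨φ, h1, h2, h3⟩ := ih fun x hx => hS x (Finset.mem_insert_of_mem hx)
      obtain ⟨ψ, k1, k2, k3⟩ := dual_sep τ a (hS a (Finset.mem_insert_self a S))
      refine ⟨fun g => φ g * ψ g, dual_mul τ h1 k1, ?_, ?_⟩
      · intro g hg
        show φ g * ψ g = 1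
        rw [h2 g hg, k2 g hg, one_mul]
      · intro x hx
        rcases Finset.mem_insert.1 hx with rfl | hx
        · show φ x * ψ x = 0
          rw [k3, mul_zero]
        · show φ x * ψ x = 0
          rw [h3 x hx, zero_mul]
  obtain ⟨φ, ⟨ι, hι, b, c, h⟩, h2, h3⟩ := key (Finset.univ.filter fun x => τ x ≠ RingHom.id F)
    fun x hx => (Finset.mem_filter.1 hx).2
  let e : Fin (Fintype.card ι) ≃ ι := (Fintype.equivFin ι).symm
  have hsum : ∀ g, ∑ i, b (e i) * τ g (c (e i)) = φ g := by
    intro g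
    rw [h g]
    exact Equiv.sum_comp e fun i => b i * τ g (c i)
  refine ⟨Fintype.card ι, fun i => b (e i), fun i => c (e i), fun g => ⟨fun hg => ?_, fun hg => ?_⟩⟩
  · rw [hsum g]
    exact h2 g hg
  · rw [hsum g]
    exact h3 g (Finset.mem_filter.2 ⟨Finset.mem_univ g, hg⟩)

end NF83
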