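import Pool.Agent.H.MP_83e36b_nt.rr.Hm
import Pool.Agent.H.MP_83e36b_nt.rr.Dual

/-! Descent of the invariants of the kernel to the invariants of the group. -/

set_option autoImplicit false

open MvPolynomial

namespace NF83

variable {F : Type} [Field F] {n : ℕ} {G : Type} [Group G] {τ : G → F →+* F}
  {σ : G → MvPolynomial (Fin n) F →+* MvPolynomial (Fin n) F}

/-- Proof: `b`, `c` as in `exists_dual`, `N` the kernel, `P i = ∑_{g ∈ G} σ g (C (c i) * p)`.  `P i` is
invariant and, if `p` is homogeneous of degree `d`, so is `P i` (`GAct.homog`).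
`∑ C (b i) * P i = ∑_g C (∑ b i * τ g (c i)) * σ g p = ∑_{g ∈ N} σ g p = |N| p`; divide `b` by `|N|`. -/
theorem exists_dsc [CharZero F] [Finite G] (h : GAct τ σ) {p : MvPolynomial (Fin n) F}
    (hp : InvN τ σ p) : ∃ (m : ℕ) (b : Fin m → F) (P : Fin m → MvPolynomial (Fin n) F),
      (∀ i, InvG σ (P i)) ∧ p = ∑ i, C (b i) * P i ∧
      ∀ d, p.IsHomogeneous d → ∀ i, (P i).IsHomogeneous d := by
  classical
  obtain ⟨m, b, c, hbc⟩ := exists_dual τ
  cases nonempty_fintype G
  obtain ⟨N, hN⟩ : ∃ N : Finset G, N = Finset.univ.filter fun g => τ g = RingHom.id F := ⟨_, rfl⟩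
  have hN0 : (N.card : F) ≠ 0 := by
    rw [Nat.cast_ne_zero]
    refine (Finset.card_pos.2 ⟨1, ?_⟩).ne'
    rw [hN]
    exact Finset.mem_filter.2 ⟨Finset.mem_univ _, h.τ1⟩
  refine ⟨m, fun i => (N.card : F)⁻¹ * b i, fun i => ∑ g, σ g (C (c i) * p), fun i x => ?_, ?_,
    fun d hd i => ?_⟩
  · rw [map_sum]
    have e : ∀ g, σ x (σ g (C (c i) * p)) = σ (x * g) (C (c i) * p) := fun g => by
      rw [h.σm]
      rfl
    rw [Finset.sum_congr rfl fun g _ => e g]
    exact Equiv.sum_comp (Equiv.mulLeft x) fun g => σ g (C (c i) * p)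
  · have e1 : ∀ i, C ((N.card : F)⁻¹ * b i) * ∑ g, σ g (C (c i) * p) =
        ∑ g, C ((N.card : F)⁻¹ * (b i * τ g (c i))) * σ g p := by
      intro i
      rw [Finset.mul_sum]
      refine Finset.sum_congr rfl fun g _ => ?_
      rw [map_mul (σ g), h.coeff, ← mul_assoc, ← C_mul, mul_assoc]
    rw [Finset.sum_congr rfl fun i _ => e1 i, Finset.sum_comm]
    have e2 : ∀ g, (∑ i, C ((N.card : F)⁻¹ * (b i * τ g (c i))) * σ g p) =
        if τ g = RingHom.id F then C (N.card : F)⁻¹ * p else 0 := by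
      intro g
      rw [← Finset.sum_mul, ← map_sum, ← Finset.mul_sum]
      by_cases hg : τ g = RingHom.id F
      · rw [if_pos hg, (hbc g).1 hg, mul_one, hp g hg]
      · rw [if_neg hg, (hbc g).2 hg, mul_zero, C_0, zero_mul]
    rw [Finset.sum_congr rfl fun g _ => e2 g, ← Finset.sum_filter, Finset.sum_const, ← hN,
      nsmul_eq_mul, ← mul_assoc, ← C_eq_coe_nat, ← C_mul, mul_inv_cancel₀ hN0, C_1, one_mul]
  · refine IsHomogeneous.sum _ _ _ fun g _ => h.homog ?_ g
    have h1 := (isHomogeneous_C (Fin n) (c i)).mul hd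
    rwa [zero_add] at h1

/-- Proof: `Ideal.span_le` in both directions, `exists_dsc`. -/
theorem idN_eq [CharZero F] [Finite G] (h : GAct τ σ) :
    idN τ σ = Ideal.span {p | InvG σ p ∧ ∃ d, 0 < d ∧ p.IsHomogeneous d} := by
  refine le_antisymm (Ideal.span_le.2 ?_) (Ideal.span_mono ?_)
  · rintro p ⟨hp, d, hd, hpd⟩
    obtain ⟨m, b, P, hP, hsum, hhom⟩ := exists_dsc h hp
    rw [hsum]
    exact Ideal.sum_mem _ fun i _ => Ideal.mul_mem_left _ _
      (Ideal.subset_span ⟨hP i, d, hd, hhom d hpd i⟩)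
  · rintro p ⟨hp, d, hd, hpd⟩
    exact ⟨hp.invN, d, hd, hpd⟩

/-- Proof: `MvPolynomial (Fin n) F` is Noetherian, so the ideal `idN` (`idN_eq`) is finitely generated, and
generated by a finite subset of the set of the homogeneous `InvG` elements of positive degree
(`Submodule.fg_span_iff_fg_span_finset_subset` or similar).  Choose such a finite subset with the least
number of elements, and enumerate it by `Fin r`: no element is in the ideal generated by the others. -/
theorem exists_gens [CharZero F] [Finite G] (h : GAct τ σ) :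
    ∃ (r : ℕ) (f : Fin r → MvPolynomial (Fin n) F) (d : Fin r → ℕ), Gens τ σ f d := by
  classical
  obtain ⟨S, hS⟩ : ∃ S : Set (MvPolynomial (Fin n) F),
    S = {p | InvG σ p ∧ ∃ d, 0 < d ∧ p.IsHomogeneous d} := ⟨_, rfl⟩
  have hfg : (Submodule.span (MvPolynomial (Fin n) F) S).FG := IsNoetherian.noetherian _
  obtain ⟨s₀, hs₀, hs₀'⟩ := (Submodule.fg_span_iff_fg_span_finset_subset S).1 hfg
  have hex : ∃ N : ℕ, ∃ s : Finset (MvPolynomial (Fin n) F), (s : Set _) ⊆ S ∧
      Ideal.span S = Ideal.span (s : Set (MvPolynomial (Fin n) F)) ∧ s.card = N :=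
    ⟨_, s₀, hs₀, hs₀', rfl⟩
  obtain ⟨s, hsS, hs, hcard⟩ := Nat.find_spec hex
  have hmem : ∀ i : Fin s.card, (s.equivFin.symm i : MvPolynomial (Fin n) F) ∈ S :=
    fun i => hsS (s.equivFin.symm i).2
  rw [hS] at hmem
  choose hinv d hd hhom using hmem
  have hrange : Set.range (fun i : Fin s.card => (s.equivFin.symm i : MvPolynomial (Fin n) F)) =
      (s : Set (MvPolynomial (Fin n) F)) := by
    ext p
    constructor
    · rintro ⟨i, rfl⟩
      exact (s.equivFin.symm i).2
    · intro hp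
      exact ⟨s.equivFin ⟨p, hp⟩, by
        show ((s.equivFin.symm (s.equivFin ⟨p, hp⟩) : s) : MvPolynomial (Fin n) F) = p
        rw [Equiv.symm_apply_apply]⟩
  refine ⟨s.card, fun i => (s.equivFin.symm i : MvPolynomial (Fin n) F), d, ⟨hinv, hd, hhom, ?_,
    fun i hi => ?_⟩⟩
  · rw [hrange, idN_eq h, ← hs, hS]
  · have h1 : ((fun i : Fin s.card => (s.equivFin.symm i : MvPolynomial (Fin n) F)) ''
        {j | j ≠ i}) ⊆ (s.erase (s.equivFin.symm i : MvPolynomial (Fin n) F) :
          Finset (MvPolynomial (Fin n) F)) := by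
      rintro _ ⟨j, hj, rfl⟩
      rw [Finset.mem_coe, Finset.mem_erase]
      refine ⟨fun h2 => hj ?_, (s.equivFin.symm j).2⟩
      exact s.equivFin.symm.injective (Subtype.ext h2)
    have h2 := Ideal.span_mono h1 hi
    have h3 : Ideal.span S = Ideal.span ((s.erase (s.equivFin.symm i : MvPolynomial (Fin n) F) :
          Finset (MvPolynomial (Fin n) F)) : Set (MvPolynomial (Fin n) F)) := by
      rw [hs]
      refine le_antisymm (Ideal.span_le.2 fun p hp => ?_) (Ideal.span_mono ?_)
      · by_cases hpi : p = (s.equivFin.symm i : MvPolynomial (Fin n) F)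
        · rw [hpi]
          exact h2
        · exact Ideal.subset_span (Finset.mem_coe.2 (Finset.mem_erase.2 ⟨hpi, hp⟩))
      · exact Finset.coe_subset.2 (Finset.erase_subset _ _)
    have h4 := Nat.find_min' hex ⟨s.erase (s.equivFin.symm i : MvPolynomial (Fin n) F),
      (Finset.coe_subset.2 (Finset.erase_subset _ _)).trans hsS, h3, rfl⟩
    have h5 : (s.erase (s.equivFin.symm i : MvPolynomial (Fin n) F)).card < s.card :=
      Finset.card_erase_lt_of_mem (s.equivFin.symm i).2
    omega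

end NF83
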