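import Pool.Agent.H.MP_83e36b_nt.nr.SDefs

/-! Extensions by groups which generate, together with scalars, a group generated by
pseudo-reflections. -/

set_option autoImplicit false

namespace NF83

/-- The kernel of the surjection `q : G → A` generates with a group of scalars a group generated by
pseudo-reflections: `ρ` is a `K`-semilinear representation of `G` on `K^n` (a cocycle `ρ : G → GL_n(K)`,
`ρ(g h) = ρ(g) g(ρ(h))`, over the action `γ ∘ q` of `G` on `K`) on which the kernel acts faithfully
(`inj`), `Z` is a finite group of elements of `K`, stable under `G`, and every `z ρ(h)`, `z` in `Z` and `h` in the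
kernel, is a product of matrices `z' ρ(s)` of this form for which `z' ρ(s) - 1` has rank at most one
(`gen`). -/
structure KerReflZ {k K : Type} [Field k] [Field K] [Algebra k K] {G A : Type} [Group G] [Group A]
    (γ : A →* (K ≃ₐ[k] K)) (q : G →* A) {n : ℕ} (ρ : G → Matrix (Fin n) (Fin n) K)
    (Z : Subgroup Kˣ) : Prop where
  one : ρ 1 = 1
  mul : ∀ g h, ρ (g * h) = ρ g * (ρ h).map (γ (q g))
  inj : ∀ h, q h = 1 → ρ h = 1 → h = 1
  fin : Finite Z
  stab : ∀ g, ∀ z ∈ Z, Units.map (γ (q g) : K →* K) z ∈ Z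
  gen : ∀ z ∈ Z, ∀ h, q h = 1 → (z : K) • ρ h ∈ Submonoid.closure
    {M : Matrix (Fin n) (Fin n) K | (∃ z' ∈ Z, ∃ s, q s = 1 ∧ M = (z' : K) • ρ s) ∧
      ∃ u w : Fin n → K, M = 1 + Matrix.vecMulVec u w}

end NF83
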