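import Pool.Agent.H.MP_83e36b_nt.re.KDef
import Pool.Agent.H.MP_83e36b_nt.rg.GDefG
import Pool.Agent.H.MP_83e36b_nt.rr.KZ

/-! Towers of extensions of finite groups over number fields, with reflection groups and the double
covers of all degrees. -/

set_option autoImplicit false

namespace NF83

open CM83 NR83 WA83 DC83

/-- The homomorphisms `α : G → Gal(K/k)` for which the group `G` is built up in finitely many steps, in
any order, starting from an isomorphism `G → Gal(K/k)` (`gal`), by surjections `q : G → A` with kernel
* a group which acts faithfully on a `K`-semilinear representation of `G` and generates with a finite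
  group of scalars a group generated by pseudo-reflections (`refl`),
* a group with a subnormal series whose factors are alternating groups `A_n`, `n ≥ 5`, `n ≠ 6`, or, more
  generally, the top of a Weyl tower (`alt`),
* the double cover `2.A_n`, `n ≥ 4`, mapped isomorphically onto the subgroup `2.A_n` of `2.A_N` by a
  homomorphism `φ` from `G` to `2.A_N` (`dbl`),
* the double cover `2.A_n`, `n ≥ 4`, which has a complement (`s` is a section of `q`) and on which `G`
  acts through `S_n`, i.e. the natural map from the kernel to `A_n` extends to a homomorphism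
  `π : G → S_n` (`spl`). -/
inductive RTower {k : Type} [Field k] {K : Type} [Field K] [Algebra k K] :
    {G : Type} → [Group G] → (G →* (K ≃ₐ[k] K)) → Prop
  | gal {G : Type} [Group G] (α : G →* (K ≃ₐ[k] K)) (h : Function.Bijective α) : RTower α
  | refl {G A : Type} [Group G] [Group A] (γ : A →* (K ≃ₐ[k] K)) (q : G →* A)
      (hq : Function.Surjective q) {n : ℕ} (ρ : G → Matrix (Fin n) (Fin n) K) (Z : Subgroup Kˣ)
      (h : KerReflZ γ q ρ Z) (hγ : RTower γ) : RTower (γ.comp q)
  | alt {G A : Type} [Group G] [Group A] (γ : A →* (K ≃ₐ[k] K)) (q : G →* A)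
      (hq : Function.Surjective q) (hN : AltSeries q.ker ∨ Tower G q.ker) (hγ : RTower γ) :
      RTower (γ.comp q)
  | dbl {G A : Type} [Group G] [Group A] (γ : A →* (K ≃ₐ[k] K)) (q : G →* A)
      (hq : Function.Surjective q) (n N : ℕ) (hn : 4 ≤ n) (hN : n ≤ N) (φ : G →* CMat N)
      (hφ : KerDbl n N q φ) (hγ : RTower γ) : RTower (γ.comp q)
  | spl {G A : Type} [Group G] [Group A] (γ : A →* (K ≃ₐ[k] K)) (q : G →* A) (s : A →* G)
      (hs : ∀ a, q (s a) = a) (n : ℕ) (hn : 4 ≤ n) (χ : q.ker →* CMat n)
      (π : G →* Equiv.Perm (Fin n)) (h : KerAlt n q χ π) (hγ : RTower γ) : RTower (γ.comp q)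

end NF83
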