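import Pool.Agent.H.MP_83e36b_nt.rr.Cst
import Pool.Agent.H.MP_83e36b_nt.nr.Semi

/-! The fixed field of the field of fractions. -/

set_option autoImplicit false

open MvPolynomial CM83

namespace NF83

/-- Proof: `z = a / b`; `b' = ∏_g σ g b ≠ 0` is invariant, `a' = a * ∏_{g ≠ 1} σ g b`, `z = a' / b'`
(`σ g` is injective: `σ g⁻¹ ∘ σ g = id`), and `a' = z * b'` is invariant (the map to the field of fractions
is injective). -/
theorem frac_fix {F : Type} [Field F] {n : ℕ} {G : Type} [Group G] [Finite G] {τ : G → F →+* F}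
    {σ : G → MvPolynomial (Fin n) F →+* MvPolynomial (Fin n) F} (h : GAct τ σ)
    (ε : G → RF F n →+* RF F n)
    (hε : ∀ g p, ε g (algebraMap (MvPolynomial (Fin n) F) (RF F n) p) =
      algebraMap (MvPolynomial (Fin n) F) (RF F n) (σ g p)) {z : RF F n} (hz : ∀ g, ε g z = z) :
    ∃ a b : MvPolynomial (Fin n) F, b ≠ 0 ∧ InvG σ a ∧ InvG σ b ∧
      z = algebraMap (MvPolynomial (Fin n) F) (RF F n) a /
        algebraMap (MvPolynomial (Fin n) F) (RF F n) b := by
  classical
  have := Fintype.ofFinite G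
  have hinj : Function.Injective (algebraMap (MvPolynomial (Fin n) F) (RF F n)) :=
    IsFractionRing.injective _ _
  obtain ⟨a, b, hb, hab⟩ := IsFractionRing.div_surjective (A := MvPolynomial (Fin n) F) z
  have hb0 : b ≠ 0 := nonZeroDivisors.ne_zero hb
  have hσ0 : ∀ g, σ g b ≠ 0 := by
    intro g hg
    apply hb0
    have h1 : σ (g⁻¹ * g) b = σ g⁻¹ (σ g b) := by
      rw [h.σm]
      rfl
    rw [hg, map_zero, inv_mul_cancel, h.σ1] at h1
    exact h1
  have hprod : (∏ g, σ g b) ≠ 0 := Finset.prod_ne_zero_iff.2 fun g _ => hσ0 g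
  have hsplit : (∏ g, σ g b) = b * ∏ g ∈ Finset.univ.erase (1 : G), σ g b := by
    rw [← Finset.mul_prod_erase Finset.univ (fun g => σ g b) (Finset.mem_univ 1), h.σ1]
    rfl
  have hinvb : InvG σ (∏ g, σ g b) := by
    intro t
    rw [map_prod]
    have h1 : ∀ g, σ t (σ g b) = σ (t * g) b := by
      intro g
      rw [h.σm]
      rfl
    rw [Finset.prod_congr rfl fun g _ => h1 g]
    exact Fintype.prod_equiv (Equiv.mulLeft t) _ _ fun g => rfl
  have hb1 : algebraMap (MvPolynomial (Fin n) F) (RF F n) b ≠ 0 :=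
    fun h0 => hb0 (hinj (h0.trans (map_zero _).symm))
  have hP1 : algebraMap (MvPolynomial (Fin n) F) (RF F n) (∏ g, σ g b) ≠ 0 :=
    fun h0 => hprod (hinj (h0.trans (map_zero _).symm))
  have hz' : algebraMap (MvPolynomial (Fin n) F) (RF F n)
      (a * ∏ g ∈ Finset.univ.erase (1 : G), σ g b) =
      z * algebraMap (MvPolynomial (Fin n) F) (RF F n) (∏ g, σ g b) := by
    rw [hsplit, map_mul, map_mul, ← hab, ← mul_assoc, div_mul_cancel₀ _ hb1]
  refine ⟨a * ∏ g ∈ Finset.univ.erase (1 : G), σ g b, ∏ g, σ g b, hprod, ?_, hinvb, ?_⟩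
  · intro t
    apply hinj
    rw [← hε, hz', map_mul, hz, hε, hinvb t]
  · rw [hz', mul_div_cancel_right₀ _ hP1]

/-- Proof: let `σ g` be the `MvPolynomial.eval₂Hom` with `C a ↦ C (δ (q g) a)`,
`X j ↦ ∑ i, C (m g i j) * X i` and `τ g = δ (q g)`; `algebraMap (σ g p) = ε g (algebraMap p)`
(`MvPolynomial.ringHom_ext`), so `GAct τ σ` follows from `ε` by the injectivity of
`algebraMap (MvPolynomial (Fin n) L) (RF L n)`.  `GenRfl τ σ`: `τ g = id` if and only if `q g = 1` (`hδ`);
if `m s = 1 + vecMulVec u w` then `σ s (X j) = X j + C (w j) * ∑ i, C (u i) * X i`, so `s` is `IsRfl`; a subgroup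
which contains these contains the closure.  Take `f` from `cst` and `u = algebraMap ∘ f`.  `u` is
algebraically independent over `L` (`AlgebraicIndependent.map'` or `of_comp`), `ε g (u i) = u i`, and a
fixed element is `a / b` with `a`, `b` invariant (`frac_fix`), so in `L(u)`. -/
theorem refl_fix {k : Type} [Field k] [CharZero k] {L : Type} [Field L] [Algebra k L]
    {G A : Type} [Group G] [Finite G] [Group A] (q : G →* A) (δ : A →* (L ≃ₐ[k] L))
    (hδ : Function.Injective δ) {n : ℕ} (ε : G →* (RF L n ≃ₐ[k] RF L n))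
    (hε : ∀ g a, ε g (algebraMap L (RF L n) a) = algebraMap L (RF L n) (δ (q g) a))
    (m : G → Matrix (Fin n) (Fin n) L)
    (hm : ∀ g j, ε g (xv L j) = ∑ i, algebraMap L (RF L n) (m g i j) * xv L i)
    (hgen : ∀ h, q h = 1 → h ∈ Subgroup.closure
      {s : G | q s = 1 ∧ ∃ u w : Fin n → L, m s = 1 + Matrix.vecMulVec u w}) :
    ∃ (r : ℕ) (u : Fin r → RF L n), AlgebraicIndependent L u ∧ (∀ g i, ε g (u i) = u i) ∧
      ∀ z, (∀ g, ε g z = z) → z ∈ IntermediateField.adjoin L (Set.range u) := by
  classical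
  have hL : CharZero L := charZero_of_injective_algebraMap (algebraMap k L).injective
  have hinj : Function.Injective (algebraMap (MvPolynomial (Fin n) L) (RF L n)) :=
    IsFractionRing.injective _ _
  let τ : G → L →+* L := fun g => ((δ (q g) : L ≃ₐ[k] L) : L →+* L)
  let σ : G → MvPolynomial (Fin n) L →+* MvPolynomial (Fin n) L := fun g =>
    MvPolynomial.eval₂Hom (C.comp (τ g)) fun j => ∑ i, C (m g i j) * X i
  have hτ : ∀ g a, τ g a = δ (q g) a := fun _ _ => rfl
  have hσC : ∀ g a, σ g (C a) = C (δ (q g) a) := fun g a => MvPolynomial.eval₂Hom_C _ _ _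
  have hσX : ∀ g j, σ g (X j) = ∑ i, C (m g i j) * X i := fun g j =>
    MvPolynomial.eval₂Hom_X' _ _ _
  have hC : ∀ a : L, algebraMap L (RF L n) a =
      algebraMap (MvPolynomial (Fin n) L) (RF L n) (C a) := by
    intro a
    rw [IsScalarTower.algebraMap_apply L (MvPolynomial (Fin n) L) (RF L n),
      MvPolynomial.algebraMap_eq]
  have hX : ∀ j, xv L j = algebraMap (MvPolynomial (Fin n) L) (RF L n) (X j) := fun _ => rfl
  have key : ∀ g p, ε g (algebraMap (MvPolynomial (Fin n) L) (RF L n) p) =
      algebraMap (MvPolynomial (Fin n) L) (RF L n) (σ g p) := by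
    intro g p
    have h1 : ((ε g : RF L n ≃ₐ[k] RF L n) : RF L n →+* RF L n).comp
        (algebraMap (MvPolynomial (Fin n) L) (RF L n)) =
        (algebraMap (MvPolynomial (Fin n) L) (RF L n)).comp (σ g) := by
      apply MvPolynomial.ringHom_ext
      · intro a
        change ε g (algebraMap (MvPolynomial (Fin n) L) (RF L n) (C a)) =
          algebraMap (MvPolynomial (Fin n) L) (RF L n) (σ g (C a))
        rw [← hC, hε, hσC, hC]
      · intro j
        change ε g (algebraMap (MvPolynomial (Fin n) L) (RF L n) (X j)) =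
          algebraMap (MvPolynomial (Fin n) L) (RF L n) (σ g (X j))
        rw [← hX, hm, hσX, map_sum]
        refine Finset.sum_congr rfl fun i _ => ?_
        rw [map_mul, ← hC, ← hX]
    exact congrArg (fun t : MvPolynomial (Fin n) L →+* RF L n => t p) h1
  have hact : GAct τ σ := by
    refine ⟨?_, ?_, ?_, ?_, hσC, ?_⟩
    · ext a
      rw [hτ, map_one, map_one]
      rfl
    · intro g g'
      ext a
      rw [hτ, map_mul, map_mul]
      rfl
    · apply RingHom.ext
      intro p
      apply hinj
      rw [← key, map_one]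
      rfl
    · intro g g'
      apply RingHom.ext
      intro p
      apply hinj
      rw [← key, map_mul]
      change ε g (ε g' (algebraMap (MvPolynomial (Fin n) L) (RF L n) p)) =
        algebraMap (MvPolynomial (Fin n) L) (RF L n) (σ g (σ g' p))
      rw [key, key]
    · intro g j
      rw [hσX]
      refine MvPolynomial.IsHomogeneous.sum _ _ _ fun i _ => ?_
      exact MvPolynomial.isHomogeneous_C_mul_X _ _
  have hgr : GenRfl τ σ := by
    intro H hH g hg
    have hq : q g = 1 := by
      apply hδ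
      rw [map_one]
      apply AlgEquiv.ext
      intro a
      exact congrArg (fun t : L →+* L => t a) hg
    refine (Subgroup.closure_le H).2 ?_ (hgen g hq)
    rintro s ⟨hs, u, w, hms⟩
    apply hH s
    · ext a
      rw [hτ, hs, map_one]
      rfl
    · refine ⟨∑ i, C (u i) * X i, w, ?_, ?_⟩
      · refine MvPolynomial.IsHomogeneous.sum _ _ _ fun i _ => ?_
        exact MvPolynomial.isHomogeneous_C_mul_X _ _
      · intro j
        rw [hσX, hms, Finset.mul_sum]
        have h1 : ∀ i, (C ((1 + Matrix.vecMulVec u w) i j) : MvPolynomial (Fin n) L) * X i =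
            (if i = j then X i else 0) + C (w j) * (C (u i) * X i) := by
          intro i
          rw [Matrix.add_apply, Matrix.one_apply, Matrix.vecMulVec_apply]
          split_ifs
          · rw [C_add, C_mul, C_1]
            ring
          · rw [C_add, C_mul, C_0]
            ring
        rw [Finset.sum_congr rfl fun i _ => h1 i, Finset.sum_add_distrib,
          Finset.sum_ite_eq' Finset.univ j, if_pos (Finset.mem_univ j)]
  obtain ⟨r, f, hfI, hfA, hfG⟩ := cst hact hgr
  let φ : MvPolynomial (Fin n) L →ₐ[L] RF L n :=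
    IsScalarTower.toAlgHom L (MvPolynomial (Fin n) L) (RF L n)
  have hφ : ∀ p, φ p = algebraMap (MvPolynomial (Fin n) L) (RF L n) p := fun _ => rfl
  refine ⟨r, fun i => φ (f i), ?_, ?_, ?_⟩
  · exact hfA.map' (f := φ) hinj
  · intro g i
    change ε g (φ (f i)) = φ (f i)
    rw [hφ, key, hfI i g]
  · intro z hz
    obtain ⟨a, b, -, ha, hb, hzab⟩ := frac_fix hact
      (fun g => ((ε g : RF L n ≃ₐ[k] RF L n) : RF L n →+* RF L n)) key hz
    have hmem : ∀ p, InvG σ p → φ p ∈ IntermediateField.adjoin L (Set.range fun i => φ (f i)) := by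
      intro p hp
      have h1 := hfG p fun g _ => hp g
      have h2 : φ p ∈ (Algebra.adjoin L (Set.range f)).map φ := ⟨p, h1, rfl⟩
      rw [AlgHom.map_adjoin, ← Set.range_comp] at h2
      exact IntermediateField.algebra_adjoin_le_adjoin L _ h2
    rw [hzab]
    exact div_mem (hmem a ha) (hmem b hb)

end NF83
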