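import Pool.Agent.H.MP_83e36b_nt.rr.Hfr
import Pool.Agent.H.MP_83e36b_nt.rr.Frc
import Pool.Agent.H.MP_83e36b_nt.nr.SI

/-! The invariants and the invariants of degree zero. -/

set_option autoImplicit false

open MvPolynomial CM83 NR83

namespace NF83

private theorem Grd_act {k : Type} [Field k] {L : Type} [Field L] [Algebra k L] {n : ℕ}
    {G : Type} [Group G] (δ : G →* (L ≃ₐ[k] L)) (ε : G →* (RF L n ≃ₐ[k] RF L n))
    (hε : ∀ g a, ε g (algebraMap L (RF L n) a) = algebraMap L (RF L n) (δ g a))
    (hm : ∀ g j, ∃ c : Fin n → L, ε g (xv L j) = ∑ i, algebraMap L (RF L n) (c i) * xv L i) :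
    ∃ (τ : G → L →+* L) (σ : G → MvPolynomial (Fin n) L →+* MvPolynomial (Fin n) L),
      GAct τ σ ∧ ∀ g p, ε g (algebraMap (MvPolynomial (Fin n) L) (RF L n) p) =
        algebraMap (MvPolynomial (Fin n) L) (RF L n) (σ g p) := by
  classical
  have hinj : Function.Injective (algebraMap (MvPolynomial (Fin n) L) (RF L n)) :=
    IsFractionRing.injective _ _
  choose m hm using hm
  let τ : G → L →+* L := fun g => ((δ g : L ≃ₐ[k] L) : L →+* L)
  let σ : G → MvPolynomial (Fin n) L →+* MvPolynomial (Fin n) L := fun g =>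
    MvPolynomial.eval₂Hom (C.comp (τ g)) fun j => ∑ i, C (m g j i) * X i
  have hτ : ∀ g a, τ g a = δ g a := fun _ _ => rfl
  have hσC : ∀ g a, σ g (C a) = C (δ g a) := fun g a => MvPolynomial.eval₂Hom_C _ _ _
  have hσX : ∀ g j, σ g (X j) = ∑ i, C (m g j i) * X i := fun g j =>
    MvPolynomial.eval₂Hom_X' _ _ _
  have hC : ∀ a : L, algebraMap L (RF L n) a =
      algebraMap (MvPolynomial (Fin n) L) (RF L n) (C a) := by
    intro a
    rw [IsScalarTower.algebraMap_apply L (MvPolynomial (Fin n) L) (RF L n),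
      MvPolynomial.algebraMap_eq]
  have hX : ∀ j, xv L j = algebraMap (MvPolynomial (Fin n) L) (RF L n) (X j) := fun _ => rfl
  have key : ∀ g p, ε g (algebraMap (MvPolynomial (Fin n) L) (RF L n) p) =
      algebraMap (MvPolynomial (Fin n) L) (RF L n) (σ g p) := by
    intro g p
    have h1 : ((ε g : RF L n ≃ₐ[k] RF L n) : RF L n →+* RF L n).comp
        (algebraMap (MvPolynomial (Fin n) L) (RF L n)) =
        (algebraMap (MvPolynomial (Fin n) L) (RF L n)).comp (σ g) := by
      apply MvPolynomial.ringHom_ext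
      · intro a
        change ε g (algebraMap (MvPolynomial (Fin n) L) (RF L n) (C a)) =
          algebraMap (MvPolynomial (Fin n) L) (RF L n) (σ g (C a))
        rw [← hC, hε, hσC, hC]
      · intro j
        change ε g (algebraMap (MvPolynomial (Fin n) L) (RF L n) (X j)) =
          algebraMap (MvPolynomial (Fin n) L) (RF L n) (σ g (X j))
        rw [← hX, hm, hσX, map_sum]
        refine Finset.sum_congr rfl fun i _ => ?_
        rw [map_mul, ← hC, ← hX]
    exact congrArg (fun t : MvPolynomial (Fin n) L →+* RF L n => t p) h1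
  refine ⟨τ, σ, ⟨?_, ?_, ?_, ?_, hσC, ?_⟩, key⟩
  · ext a
    rw [hτ, map_one]
    rfl
  · intro g g'
    ext a
    rw [hτ, map_mul]
    rfl
  · apply RingHom.ext
    intro p
    apply hinj
    rw [← key, map_one]
    rfl
  · intro g g'
    apply RingHom.ext
    intro p
    apply hinj
    rw [← key, map_mul]
    change ε g (ε g' (algebraMap (MvPolynomial (Fin n) L) (RF L n) p)) =
      algebraMap (MvPolynomial (Fin n) L) (RF L n) (σ g (σ g' p))
    rw [key, key]
  · intro g j
    rw [hσX]
    refine MvPolynomial.IsHomogeneous.sum _ _ _ fun i _ => ?_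
    exact MvPolynomial.isHomogeneous_C_mul_X _ _

/-- powers of homogeneous fractions -/
private theorem Grd_pow {L : Type} [Field L] {n : ℕ} {d : ℤ} {z : RF L n} (hz : Hfr d z)
    (i : ℕ) : Hfr (i * d) (z ^ i) := by
  induction i with
  | zero =>
    rw [Nat.cast_zero, zero_mul, pow_zero]
    exact Hfr.one
  | succ i ih =>
    have h := ih.mul hz
    rw [← pow_succ] at h
    have h2 : ((i + 1 : ℕ) : ℤ) * d = i * d + d := by push_cast; ring
    rwa [h2]

private theorem Grd_zpow {L : Type} [Field L] {n : ℕ} {d : ℤ} {z : RF L n} (hz : Hfr d z)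
    (h0 : z ≠ 0) (l : ℤ) : Hfr (l * d) (z ^ l) := by
  rcases l with i | i
  · rw [Int.ofNat_eq_natCast, zpow_natCast]
    exact Grd_pow hz i
  · rw [zpow_negSucc]
    have h := (Grd_pow hz (i + 1)).inv (pow_ne_zero _ h0)
    have h2 : Int.negSucc i * d = -(((i + 1 : ℕ) : ℤ) * d) := by
      rw [Int.negSucc_eq]
      push_cast
      ring
    rwa [h2]

/-- Proof: `Hfr.zero`, `.one`, `.mul`, `.inv`, `.add`, `.alg`. -/
theorem exists_E0 {k : Type} [Field k] {L : Type} [Field L] [Algebra k L] {n : ℕ} {G : Type}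
    [Group G] (ε : G →* (RF L n ≃ₐ[k] RF L n)) :
    ∃ E₀ : IntermediateField k (RF L n), ∀ z, z ∈ E₀ ↔ Hfr 0 z ∧ ∀ g, ε g z = z := by
  let S : Subfield (RF L n) :=
    { carrier := {z | Hfr 0 z ∧ ∀ g, ε g z = z}
      mul_mem' := by
        rintro a b ⟨ha, ha'⟩ ⟨hb, hb'⟩
        refine ⟨?_, fun g => by rw [map_mul, ha', hb']⟩
        have := ha.mul hb
        rwa [add_zero] at this
      one_mem' := ⟨Hfr.one, fun g => map_one _⟩
      add_mem' := by
        rintro a b ⟨ha, ha'⟩ ⟨hb, hb'⟩
        exact ⟨ha.add hb, fun g => by rw [map_add, ha', hb']⟩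
      zero_mem' := ⟨Hfr.zero 0, fun g => map_zero _⟩
      neg_mem' := by
        rintro a ⟨ha, ha'⟩
        exact ⟨ha.neg, fun g => by rw [map_neg, ha']⟩
      inv_mem' := by
        rintro a ⟨ha, ha'⟩
        refine ⟨?_, fun g => by rw [map_inv₀, ha']⟩
        by_cases h0 : a = 0
        · rw [h0, inv_zero]
          exact Hfr.zero 0
        · have := ha.inv h0
          rwa [neg_zero] at this }
  refine ⟨S.toIntermediateField fun x => ⟨?_, fun g => (ε g).commutes x⟩, fun z => Iff.rfl⟩
  rw [IsScalarTower.algebraMap_apply k L (RF L n)]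
  exact Hfr.alg _

/-- Proof: the degrees of the nonzero homogeneous fractions fixed by `ε` form a subgroup `e ℤ` of `ℤ`.
A fixed element is `a / b` with invariant polynomials (`frac_fix`; `σ`, `τ` from `ε` as in `refl_fix`), whose
homogeneous components are invariant (`InvG.hcomp`).  If `e = 0` all invariants are of degree `0` and
`fixF ε = E₀` (`StablyIso.of_equiv`).  If `e > 0` let `t ≠ 0` be fixed of degree `e`; a component `a_i ≠ 0`
has `i = e l` and `a_i = (a_i / t ^ l) * t ^ l`, `a_i / t ^ l ∈ E₀`; so `fixF ε = E₀(t)`, and `t` is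
transcendental over `E₀` by `Hfr.sum_zero`.  `StablyIso.of_algInd` (with the algebra structure of `fixF ε`
over `E₀` given by the inclusion). -/
theorem grad_st {k : Type} [Field k] {L : Type} [Field L] [Algebra k L] {n : ℕ} {G : Type}
    [Group G] [Finite G] (δ : G →* (L ≃ₐ[k] L)) (ε : G →* (RF L n ≃ₐ[k] RF L n))
    (hε : ∀ g a, ε g (algebraMap L (RF L n) a) = algebraMap L (RF L n) (δ g a))
    (hm : ∀ g j, ∃ c : Fin n → L, ε g (xv L j) = ∑ i, algebraMap L (RF L n) (c i) * xv L i)
    (E₀ : IntermediateField k (RF L n)) (hE : ∀ z, z ∈ E₀ ↔ Hfr 0 z ∧ ∀ g, ε g z = z) :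
    StablyIso k E₀ (fixF ε) := by
  classical
  obtain ⟨τ, σ, hact, key⟩ := Grd_act δ ε hε hm
  have hinj : Function.Injective (algebraMap (MvPolynomial (Fin n) L) (RF L n)) :=
    IsFractionRing.injective _ _
  -- a subfield which contains the homogeneous fixed polynomials contains all fixed elements
  have hgen : ∀ (F : Subfield (RF L n)),
      (∀ (a : MvPolynomial (Fin n) L) (i : ℕ), a.IsHomogeneous i → a ≠ 0 →
        (∀ g, ε g (algebraMap (MvPolynomial (Fin n) L) (RF L n) a) =
          algebraMap (MvPolynomial (Fin n) L) (RF L n) a) →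
        algebraMap (MvPolynomial (Fin n) L) (RF L n) a ∈ F) →
      ∀ z, (∀ g, ε g z = z) → z ∈ F := by
    intro F hF z hz
    obtain ⟨a, b, -, ha, hb, hzab⟩ := frac_fix hact
      (fun g => ((ε g : RF L n ≃ₐ[k] RF L n) : RF L n →+* RF L n)) key hz
    have hp : ∀ p : MvPolynomial (Fin n) L, InvG σ p →
        algebraMap (MvPolynomial (Fin n) L) (RF L n) p ∈ F := by
      intro p hp
      rw [← MvPolynomial.sum_homogeneousComponent p, map_sum]
      refine F.sum_mem fun i _ => ?_
      by_cases h0 : homogeneousComponent i p = 0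
      · rw [h0, map_zero]
        exact F.zero_mem
      · refine hF _ i (homogeneousComponent_isHomogeneous i p) h0 fun g => ?_
        rw [key, hp.hcomp hact i g]
    rw [hzab]
    exact F.div_mem (hp a ha) (hp b hb)
  -- the degrees
  let S : AddSubgroup ℤ :=
    { carrier := {d | ∃ z : RF L n, z ≠ 0 ∧ Hfr d z ∧ ∀ g, ε g z = z}
      add_mem' := by
        rintro d e ⟨z, h1, h2, h3⟩ ⟨w, h4, h5, h6⟩
        exact ⟨z * w, mul_ne_zero h1 h4, h2.mul h5, fun g => by rw [map_mul, h3, h6]⟩
      zero_mem' := ⟨1, one_ne_zero, Hfr.one, fun g => map_one _⟩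
      neg_mem' := by
        rintro d ⟨z, h1, h2, h3⟩
        exact ⟨z⁻¹, inv_ne_zero h1, h2.inv h1, fun g => by rw [map_inv₀, h3]⟩ }
  obtain ⟨e, he⟩ := Int.subgroup_cyclic S
  have hSe : ∀ d, d ∈ S ↔ ∃ l : ℤ, d = l * e := by
    intro d
    rw [he, AddSubgroup.mem_closure_singleton]
    constructor
    · rintro ⟨l, hl⟩
      exact ⟨l, by rw [← hl, smul_eq_mul]⟩
    · rintro ⟨l, hl⟩
      exact ⟨l, by rw [hl, smul_eq_mul]⟩
  obtain ⟨t, ht0, htd, htf⟩ : e ∈ S := (hSe e).2 ⟨1, by rw [one_mul]⟩
  by_cases he0 : e = 0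
  · -- all invariants are of degree zero
    have h1 : ∀ z, z ∈ E₀ ↔ z ∈ fixF ε := by
      intro z
      rw [mem_fixF]
      constructor
      · intro hz
        exact ((hE z).1 hz).2
      · intro hz
        refine hgen E₀.toSubfield ?_ z hz
        intro a i ha ha0 haf
        have h2 : (i : ℤ) ∈ S := ⟨algebraMap (MvPolynomial (Fin n) L) (RF L n) a,
          fun h => ha0 (hinj (h.trans (map_zero _).symm)), Hfr.pol ha, haf⟩
        obtain ⟨l, hl⟩ := (hSe _).1 h2
        rw [he0, mul_zero] at hl
        refine (hE _).2 ⟨?_, haf⟩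
        have h3 := Hfr.pol (L := L) (n := n) ha
        rwa [hl] at h3
    have h2 : E₀ = fixF ε := SetLike.ext h1
    rw [h2]
    exact StablyIso.of_equiv AlgEquiv.refl
  · let E₁ : IntermediateField E₀ (RF L n) := IntermediateField.adjoin E₀ {t}
    have ht1 : t ∈ E₁ := IntermediateField.mem_adjoin_simple_self E₀ t
    have hfix1 : ∀ z, z ∈ E₁ ↔ ∀ g, ε g z = z := by
      intro z
      constructor
      · intro hz g
        induction hz using IntermediateField.adjoin_induction with
        | mem x hx =>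
          rw [Set.mem_singleton_iff.1 hx]
          exact htf g
        | algebraMap a => exact ((hE a.1).1 a.2).2 g
        | add x y _ _ h1 h2 => rw [map_add, h1, h2]
        | inv x _ h1 => rw [map_inv₀, h1]
        | mul x y _ _ h1 h2 => rw [map_mul, h1, h2]
      · intro hz
        refine hgen E₁.toSubfield ?_ z hz
        intro a i ha ha0 haf
        set A : RF L n := algebraMap (MvPolynomial (Fin n) L) (RF L n) a with hA
        have hA0 : A ≠ 0 := fun h => ha0 (hinj (h.trans (map_zero _).symm))
        have h2 : (i : ℤ) ∈ S := ⟨A, hA0, Hfr.pol ha, haf⟩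
        obtain ⟨l, hl⟩ := (hSe _).1 h2
        have h3 : A * (t ^ l)⁻¹ ∈ E₀ := by
          refine (hE _).2 ⟨?_, fun g => ?_⟩
          · have h4 := (Hfr.pol (L := L) (n := n) ha).mul
              ((Grd_zpow htd ht0 l).inv (zpow_ne_zero _ ht0))
            rw [hl, add_neg_cancel] at h4
            exact h4
          · rw [map_mul, haf, map_inv₀, map_zpow₀, htf]
        have h5 : A = algebraMap E₀ (RF L n) ⟨A * (t ^ l)⁻¹, h3⟩ * t ^ l := by
          change A = A * (t ^ l)⁻¹ * t ^ l
          rw [inv_mul_cancel_right₀ (zpow_ne_zero _ ht0)]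
        rw [h5]
        exact E₁.mul_mem (E₁.algebraMap_mem _) (zpow_mem ht1 l)
    have htr : Transcendental E₀ t := by
      rw [transcendental_iff]
      intro p hp
      rw [Polynomial.aeval_eq_sum_range] at hp
      refine Polynomial.ext fun i => ?_
      rw [Polynomial.coeff_zero]
      by_cases hi : i ∈ Finset.range (p.natDegree + 1)
      · have h1 := Hfr.sum_zero (Finset.range (p.natDegree + 1)) (fun i => (i : ℤ) * e)
          (fun a _ b _ hab => by
            have : (a : ℤ) = b := mul_right_cancel₀ he0 hab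
            exact_mod_cast this)
          (fun i => p.coeff i • t ^ i)
          (fun i _ => by
            have h2 := ((hE _).1 (p.coeff i).2).1.mul (Grd_pow htd i)
            rw [zero_add] at h2
            exact h2) hp i hi
        have h3 : ((p.coeff i : E₀) : RF L n) * t ^ i = 0 := h1
        have h4 := (mul_eq_zero.1 h3).resolve_right (pow_ne_zero _ ht0)
        exact Subtype.ext h4
      · rw [Finset.mem_range, not_lt] at hi
        exact Polynomial.coeff_eq_zero_of_natDegree_lt (by omega)
    have h1 : StablyIso k E₀ E₁ := by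
      refine StablyIso.of_algInd (κ := Unit) (fun _ => (⟨t, ht1⟩ : E₁)) ?_ ?_
      · refine AlgebraicIndependent.of_comp E₁.val ?_
        rw [algebraicIndependent_unique_type_iff]
        exact htr
      · rw [eq_top_iff]
        intro x _
        have h4 : (IntermediateField.adjoin E₀
            (Set.range fun _ : Unit => (⟨t, ht1⟩ : E₁))).map E₁.val = E₁ := by
          rw [IntermediateField.adjoin_map, ← Set.range_comp]
          congr 1
          ext y
          simp [eq_comm]
        have h3 : (x : RF L n) ∈ (IntermediateField.adjoin E₀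
            (Set.range fun _ : Unit => (⟨t, ht1⟩ : E₁))).map E₁.val := by
          rw [h4]
          exact x.2
        obtain ⟨z, hz, hzz⟩ := h3
        have h5 : z = x := Subtype.ext hzz
        rw [← h5]
        exact hz
    refine h1.trans (StablyIso.of_equiv ?_)
    refine AlgEquiv.ofBijective (A₁ := E₁) (A₂ := fixF ε) (R := k)
      { toFun := fun x => ⟨(x : RF L n), (mem_fixF ε _).2 ((hfix1 _).1 x.2)⟩
        map_one' := rfl
        map_mul' := fun a b => rfl
        map_zero' := rfl
        map_add' := fun a b => rfl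
        commutes' := fun a => rfl } ⟨?_, ?_⟩
    · intro x y hxy
      have h2 : (x : RF L n) = (y : RF L n) := congrArg (fun z : fixF ε => (z : RF L n)) hxy
      exact Subtype.ext h2
    · intro z
      exact ⟨⟨(z : RF L n), (hfix1 _).2 ((mem_fixF ε _).1 z.2)⟩, rfl⟩

end NF83
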