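import Pool.Agent.H.MP_83e36b_nt.rr.Hm
import Pool.Agent.H.MP_83e36b_nt.nr.Semi

/-! Homogeneous fractions. -/

set_option autoImplicit false

open MvPolynomial CM83

namespace NF83

/-- `z` is a homogeneous fraction of degree `d` -/
def Hfr {L : Type} [Field L] {n : ℕ} (d : ℤ) (z : RF L n) : Prop :=
  ∃ (a b : MvPolynomial (Fin n) L) (i j : ℕ), a.IsHomogeneous i ∧ b.IsHomogeneous j ∧ b ≠ 0 ∧
    (i : ℤ) - j = d ∧ z = algebraMap (MvPolynomial (Fin n) L) (RF L n) a /
      algebraMap (MvPolynomial (Fin n) L) (RF L n) b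

variable {L : Type} [Field L] {n : ℕ}

private theorem Hfr_inj : Function.Injective (algebraMap (MvPolynomial (Fin n) L) (RF L n)) :=
  IsFractionRing.injective _ _

private theorem Hfr_ne {b : MvPolynomial (Fin n) L} (hb : b ≠ 0) :
    algebraMap (MvPolynomial (Fin n) L) (RF L n) b ≠ 0 := fun h =>
  hb (Hfr_inj (by rw [h, map_zero]))

private theorem Hfr_C (a : L) : algebraMap (MvPolynomial (Fin n) L) (RF L n) (C a) =
    algebraMap L (RF L n) a := by
  rw [IsScalarTower.algebraMap_apply L (MvPolynomial (Fin n) L) (RF L n),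
    MvPolynomial.algebraMap_eq]

theorem Hfr.zero' {d : ℤ} (hd : 0 ≤ d) : Hfr d (0 : RF L n) := by
  refine ⟨0, 1, d.toNat, 0, isHomogeneous_zero _ _ _, isHomogeneous_one _ _, one_ne_zero, ?_, ?_⟩
  · rw [Int.toNat_of_nonneg hd, Nat.cast_zero, sub_zero]
  · rw [map_zero, zero_div]

/-- zero has every degree `≥ 0` -/
theorem Hfr.zero (d : ℕ) : Hfr d (0 : RF L n) := Hfr.zero' (Int.natCast_nonneg d)

/-- for `n > 0` zero has every degree (for `n = 0` there is no denominator of degree `1`) -/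
theorem Hfr.zero_of_pos (hn : 0 < n) (d : ℤ) : Hfr d (0 : RF L n) := by
  rcases le_or_gt 0 d with hd | hd
  · exact Hfr.zero' hd
  · refine ⟨0, X (⟨0, hn⟩ : Fin n) ^ (-d).toNat, 0, (-d).toNat, isHomogeneous_zero _ _ _, ?_,
      pow_ne_zero _ (X_ne_zero _), ?_, ?_⟩
    · have h1 := (isHomogeneous_X L (⟨0, hn⟩ : Fin n)).pow (-d).toNat
      rwa [one_mul] at h1
    · rw [Int.toNat_of_nonneg (by omega)]
      push_cast
      ring
    · rw [map_zero, zero_div]

theorem Hfr.pol {a : MvPolynomial (Fin n) L} {i : ℕ} (ha : a.IsHomogeneous i) :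
    Hfr i (algebraMap (MvPolynomial (Fin n) L) (RF L n) a) := by
  refine ⟨a, 1, i, 0, ha, isHomogeneous_one _ _, one_ne_zero, ?_, ?_⟩
  · rw [Nat.cast_zero, sub_zero]
  · rw [map_one, div_one]

theorem Hfr.alg (a : L) : Hfr 0 (algebraMap L (RF L n) a) := by
  have h1 := Hfr.pol (isHomogeneous_C (Fin n) a)
  rw [Hfr_C] at h1
  exact_mod_cast h1

theorem Hfr.one : Hfr 0 (1 : RF L n) := by
  have h1 := Hfr.alg (n := n) (1 : L)
  rwa [map_one] at h1

theorem Hfr.mul {d e : ℤ} {z w : RF L n} (hz : Hfr d z) (hw : Hfr e w) : Hfr (d + e) (z * w) := by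
  obtain ⟨a, b, i, j, ha, hb, hb0, h1, rfl⟩ := hz
  obtain ⟨a', b', i', j', ha', hb', hb0', h1', rfl⟩ := hw
  refine ⟨a * a', b * b', i + i', j + j', ha.mul ha', hb.mul hb', mul_ne_zero hb0 hb0', ?_, ?_⟩
  · push_cast
    rw [← h1, ← h1']
    ring
  · rw [map_mul, map_mul, div_mul_div_comm]

theorem Hfr.inv {d : ℤ} {z : RF L n} (hz : Hfr d z) (h0 : z ≠ 0) : Hfr (-d) z⁻¹ := by
  obtain ⟨a, b, i, j, ha, hb, hb0, h1, rfl⟩ := hz
  have ha0 : a ≠ 0 := by
    rintro rfl
    exact h0 (by rw [map_zero, zero_div])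
  refine ⟨b, a, j, i, hb, ha, ha0, ?_, ?_⟩
  · rw [← h1]
    ring
  · rw [inv_div]

/-- Proof: `a / b + a' / b' = (a * b' + a' * b) / (b * b')`. -/
theorem Hfr.add {d : ℤ} {z w : RF L n} (hz : Hfr d z) (hw : Hfr d w) : Hfr d (z + w) := by
  obtain ⟨a, b, i, j, ha, hb, hb0, h1, rfl⟩ := hz
  obtain ⟨a', b', i', j', ha', hb', hb0', h1', rfl⟩ := hw
  have h2 : (b * a').IsHomogeneous (i + j') := by
    have h3 : j + i' = i + j' := by omega
    rw [← h3]
    exact hb.mul ha'
  refine ⟨a * b' + b * a', b * b', i + j', j + j', (ha.mul hb').add h2, hb.mul hb',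
    mul_ne_zero hb0 hb0', ?_, ?_⟩
  · push_cast
    rw [← h1]
    ring
  · rw [map_add, map_mul, map_mul, map_mul, div_add_div _ _ (Hfr_ne hb0) (Hfr_ne hb0')]

theorem Hfr.neg {d : ℤ} {z : RF L n} (hz : Hfr d z) : Hfr d (-z) := by
  obtain ⟨a, b, i, j, ha, hb, hb0, h1, rfl⟩ := hz
  refine ⟨-a, b, i, j, ?_, hb, hb0, h1, ?_⟩
  · exact ha.neg
  · rw [map_neg, neg_div]

/-- homogeneous fractions of different degrees with sum zero are zero.
Proof: multiply by a common homogeneous denominator `∏ b i ≠ 0` (of degree `D`, enlarge it so that all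
products are polynomials of degrees `D + d i`) and take homogeneous components. -/
theorem Hfr.sum_zero {ι : Type} (s : Finset ι) (d : ι → ℤ) (hd : Set.InjOn d s)
    (z : ι → RF L n) (hz : ∀ i ∈ s, Hfr (d i) (z i)) (hsum : ∑ i ∈ s, z i = 0) :
    ∀ i ∈ s, z i = 0 := by
  classical
  choose! a b p q ha hb hb0 hpq hz using hz
  have hD : (∏ i ∈ s, b i) ≠ 0 := Finset.prod_ne_zero_iff.2 hb0
  have h1 : ∀ i ∈ s, z i * algebraMap (MvPolynomial (Fin n) L) (RF L n) (∏ i ∈ s, b i) =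
      algebraMap (MvPolynomial (Fin n) L) (RF L n) (a i * ∏ j ∈ s.erase i, b j) := by
    intro i hi
    rw [hz i hi, ← Finset.mul_prod_erase s b hi, map_mul, map_mul, ← mul_assoc,
      div_mul_cancel₀ _ (Hfr_ne (hb0 i hi))]
  have h2 : ∑ i ∈ s, (a i * ∏ j ∈ s.erase i, b j) = 0 := by
    apply Hfr_inj (L := L) (n := n)
    rw [map_sum, map_zero, ← Finset.sum_congr rfl h1, ← Finset.sum_mul, hsum, zero_mul]
  have h3 : ∀ i ∈ s, (a i * ∏ j ∈ s.erase i, b j).IsHomogeneous
      (p i + ∑ j ∈ s.erase i, q j) := fun i hi =>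
    (ha i hi).mul (IsHomogeneous.prod _ _ _ fun j hj => hb j (Finset.mem_of_mem_erase hj))
  have h4 : ∀ i ∈ s, ((p i + ∑ j ∈ s.erase i, q j : ℕ) : ℤ) = d i + ((∑ j ∈ s, q j : ℕ) : ℤ) := by
    intro i hi
    rw [← Finset.add_sum_erase s q hi, ← hpq i hi]
    push_cast
    ring
  intro i hi
  have h5 : homogeneousComponent (p i + ∑ j ∈ s.erase i, q j)
      (∑ k ∈ s, (a k * ∏ j ∈ s.erase k, b j)) = a i * ∏ j ∈ s.erase i, b j := by
    rw [map_sum, Finset.sum_eq_single_of_mem i hi]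
    · rw [homogeneousComponent_of_mem (h3 i hi), if_pos rfl]
    · intro k hk hki
      rw [homogeneousComponent_of_mem (h3 k hk), if_neg]
      intro h
      apply hki
      apply hd hk hi
      have e1 := h4 i hi
      have e2 := h4 k hk
      rw [h] at e1
      linarith
  rw [h2, map_zero] at h5
  have h6 := h1 i hi
  rw [← h5, map_zero] at h6
  exact (mul_eq_zero.1 h6).resolve_right (Hfr_ne hD)

/-- Proof: `Hfr.sum_zero` for `z` and `- z`. -/
theorem Hfr.uniq {d e : ℤ} {z : RF L n} (hz : Hfr d z) (hw : Hfr e z) (h0 : z ≠ 0) : d = e := by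
  by_contra hne
  have h1 := Hfr.sum_zero (L := L) (n := n) (Finset.univ : Finset Bool)
    (fun b => bif b then d else e) ?_ (fun b => bif b then z else -z) ?_ ?_ true
    (Finset.mem_univ _)
  · exact h0 h1
  · intro b _ c _ hbc
    cases b <;> cases c
    · rfl
    · exact absurd hbc.symm hne
    · exact absurd hbc hne
    · rfl
  · intro b _
    cases b
    · exact hw.neg
    · exact hz
  · rw [Fintype.sum_bool]
    exact add_neg_cancel z

private theorem Hfr_mon (f : RF L n →+* RF L n) (m : Fin n →₀ ℕ) (a : L) :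
    f (algebraMap (MvPolynomial (Fin n) L) (RF L n) (monomial m a)) =
      f (algebraMap L (RF L n) a) * ∏ j ∈ m.support, f (xv L j) ^ m j := by
  rw [monomial_eq, map_mul, map_mul, Hfr_C, Finsupp.prod, map_prod, map_prod]
  refine congrArg₂ _ rfl (Finset.prod_congr rfl fun j _ => ?_)
  rw [map_pow, map_pow]
  rfl

private theorem Hfr_supp {p : MvPolynomial (Fin n) L} {d : ℕ} (hp : p.IsHomogeneous d)
    {m : Fin n →₀ ℕ} (hm : m ∈ p.support) : ∑ j ∈ m.support, m j = d := by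
  have h2 := hp (MvPolynomial.mem_support_iff.1 hm)
  rw [Finsupp.weight_apply, Finsupp.sum] at h2
  simpa using h2

private theorem Hfr_map_pol {f : RF L n →+* RF L n} (hC : ∀ a, ∃ a', f (algebraMap L (RF L n) a) =
    algebraMap L (RF L n) a') (hX : ∀ j, ∃ c : Fin n → L,
      f (xv L j) = ∑ i, algebraMap L (RF L n) (c i) * xv L i) {d : ℕ}
    {p : MvPolynomial (Fin n) L} (hp : p.IsHomogeneous d) :
    ∃ p' : MvPolynomial (Fin n) L, p'.IsHomogeneous d ∧
      f (algebraMap (MvPolynomial (Fin n) L) (RF L n) p) =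
        algebraMap (MvPolynomial (Fin n) L) (RF L n) p' := by
  choose C' hC' using hC
  choose c hc using hX
  have hc' : ∀ j, f (xv L j) = algebraMap (MvPolynomial (Fin n) L) (RF L n)
      (∑ i, C (c j i) * X i) := by
    intro j
    rw [hc, map_sum]
    refine Finset.sum_congr rfl fun i _ => ?_
    rw [map_mul, Hfr_C]
    rfl
  refine ⟨∑ m ∈ p.support, C (C' (coeff m p)) *
    ∏ j ∈ m.support, (∑ i, C (c j i) * X i) ^ m j, ?_, ?_⟩
  · refine IsHomogeneous.sum _ _ _ fun m hm => ?_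
    have h3 : ∀ j, (∑ i, C (c j i) * X i : MvPolynomial (Fin n) L).IsHomogeneous 1 := by
      intro j
      refine IsHomogeneous.sum _ _ _ fun i _ => ?_
      have h4 := (isHomogeneous_C (Fin n) (c j i)).mul (isHomogeneous_X L i)
      rwa [zero_add] at h4
    have h4 : (∏ j ∈ m.support, (∑ i, C (c j i) * X i : MvPolynomial (Fin n) L) ^
        (m j)).IsHomogeneous (∑ j ∈ m.support, 1 * m j) :=
      IsHomogeneous.prod _ _ _ fun j _ => (h3 j).pow (m j)
    have h5 := (isHomogeneous_C (Fin n) (C' (coeff m p))).mul h4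
    have h6 : 0 + ∑ j ∈ m.support, 1 * m j = d := by
      rw [zero_add, ← Hfr_supp hp hm]
      simp
    rwa [h6] at h5
  · conv_lhs => rw [← support_sum_monomial_coeff p, map_sum, map_sum]
    rw [map_sum]
    refine Finset.sum_congr rfl fun m _ => ?_
    rw [Hfr_mon, hC', map_mul, Hfr_C, map_prod]
    refine congrArg₂ _ rfl (Finset.prod_congr rfl fun j _ => ?_)
    rw [hc', map_pow]

/-- a semilinear homomorphism preserves the degree.
Proof: for a homogeneous polynomial `a` of degree `i` the element `f (algebraMap a)` is the image of a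
homogeneous polynomial of degree `i` (sum of monomials), not zero if `a ≠ 0` (`f` is injective). -/
theorem Hfr.map {f : RF L n →+* RF L n} (hC : ∀ a, ∃ a', f (algebraMap L (RF L n) a) =
    algebraMap L (RF L n) a') (hX : ∀ j, ∃ c : Fin n → L,
      f (xv L j) = ∑ i, algebraMap L (RF L n) (c i) * xv L i) {d : ℤ} {z : RF L n} (hz : Hfr d z) :
    Hfr d (f z) := by
  obtain ⟨a, b, i, j, ha, hb, hb0, h1, rfl⟩ := hz
  obtain ⟨a', ha', ea⟩ := Hfr_map_pol hC hX ha
  obtain ⟨b', hb', eb⟩ := Hfr_map_pol hC hX hb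
  refine ⟨a', b', i, j, ha', hb', ?_, h1, ?_⟩
  · rintro rfl
    rw [map_zero] at eb
    exact Hfr_ne hb0 (f.injective (by rw [eb, map_zero]))
  · rw [map_div₀, ea, eb]

private theorem Hfr_scal_pol {f₁ f₂ : RF L n →+* RF L n}
    (hC : ∀ a, f₂ (algebraMap L (RF L n) a) = f₁ (algebraMap L (RF L n) a)) {c : RF L n}
    (hX : ∀ j, f₂ (xv L j) = c * f₁ (xv L j)) {d : ℕ}
    {p : MvPolynomial (Fin n) L} (hp : p.IsHomogeneous d) :
    f₂ (algebraMap (MvPolynomial (Fin n) L) (RF L n) p) =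
      c ^ d * f₁ (algebraMap (MvPolynomial (Fin n) L) (RF L n) p) := by
  conv_lhs => rw [← support_sum_monomial_coeff p, map_sum, map_sum]
  conv_rhs => rw [← support_sum_monomial_coeff p, map_sum, map_sum]
  rw [Finset.mul_sum]
  refine Finset.sum_congr rfl fun m hm => ?_
  rw [Hfr_mon, Hfr_mon, hC]
  have h1 : ∏ j ∈ m.support, f₂ (xv L j) ^ m j =
      c ^ d * ∏ j ∈ m.support, f₁ (xv L j) ^ m j := by
    rw [← Hfr_supp hp hm, ← Finset.prod_pow_eq_pow_sum, ← Finset.prod_mul_distrib]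
    refine Finset.prod_congr rfl fun j _ => ?_
    rw [hX, mul_pow]
  rw [h1]
  ring

/-- multiplication of the variables by a scalar does not change the fractions of degree zero.
Proof: for a homogeneous polynomial `a` of degree `i`, `f₂ (algebraMap a) = c ^ i * f₁ (algebraMap a)` (sum of
monomials). -/
theorem Hfr.scal {f₁ f₂ : RF L n →+* RF L n}
    (hC : ∀ a, f₂ (algebraMap L (RF L n) a) = f₁ (algebraMap L (RF L n) a)) {c : RF L n}
    (hc : c ≠ 0) (hX : ∀ j, f₂ (xv L j) = c * f₁ (xv L j)) {z : RF L n} (hz : Hfr 0 z) :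
    f₂ z = f₁ z := by
  obtain ⟨a, b, i, j, ha, hb, hb0, h1, rfl⟩ := hz
  have hij : i = j := by omega
  subst hij
  rw [map_div₀, map_div₀, Hfr_scal_pol hC hX ha, Hfr_scal_pol hC hX hb,
    mul_div_mul_left _ _ (pow_ne_zero _ hc)]

end NF83
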