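import Pool.Agent.H.MP_83e36b_nt.rr.Def

/-! The action preserves the degrees. -/

set_option autoImplicit false

open MvPolynomial

namespace NF83

variable {F : Type} [Field F] {n : ℕ} {G : Type} [Group G] {τ : G → F →+* F}
  {σ : G → MvPolynomial (Fin n) F →+* MvPolynomial (Fin n) F}

/-- Proof: `p` is the sum of its monomials `C a * ∏ X j ^ m j`, `∑ m j = d`; `σ g` maps it to
`C (τ g a) * ∏ (σ g (X j)) ^ m j`, homogeneous by `IsHomogeneous.mul`, `.pow`, `.prod`, `.sum`. -/
theorem GAct.homog (h : GAct τ σ) {p : MvPolynomial (Fin n) F} {d : ℕ} (hp : p.IsHomogeneous d)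
    (g : G) : (σ g p).IsHomogeneous d := by
  rw [← MvPolynomial.support_sum_monomial_coeff p, map_sum]
  refine MvPolynomial.IsHomogeneous.sum _ _ _ fun m hm => ?_
  have h1 : ∑ j ∈ m.support, m j = d := by
    have h2 := hp (MvPolynomial.mem_support_iff.1 hm)
    rw [Finsupp.weight_apply, Finsupp.sum] at h2
    simpa using h2
  have h3 : σ g (monomial m (MvPolynomial.coeff m p)) =
      C (τ g (MvPolynomial.coeff m p)) * ∏ j ∈ m.support, (σ g (X j)) ^ (m j) := by
    rw [monomial_eq, map_mul, h.coeff, Finsupp.prod, map_prod]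
    simp only [map_pow]
  rw [h3]
  have h4 : (∏ j ∈ m.support, (σ g (X j)) ^ (m j)).IsHomogeneous (∑ j ∈ m.support, 1 * m j) :=
    MvPolynomial.IsHomogeneous.prod _ _ _ fun j _ => (h.lin g j).pow (m j)
  have h5 := (MvPolynomial.isHomogeneous_C (Fin n) (τ g (MvPolynomial.coeff m p))).mul h4
  have h6 : 0 + ∑ j ∈ m.support, 1 * m j = d := by
    rw [zero_add, ← h1]
    simp
  rwa [h6] at h5

/-- Proof: `p = ∑ homogeneousComponent i p`; `GAct.homog`. -/
theorem GAct.hcomp (h : GAct τ σ) (g : G) (d : ℕ) (p : MvPolynomial (Fin n) F) :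
    homogeneousComponent d (σ g p) = σ g (homogeneousComponent d p) := by
  have h1 : ∀ i, (σ g (homogeneousComponent i p)).IsHomogeneous i := fun i =>
    h.homog (homogeneousComponent_isHomogeneous i p) g
  conv_lhs => rw [← MvPolynomial.sum_homogeneousComponent p, map_sum, map_sum]
  have h2 : ∀ i, homogeneousComponent d (σ g (homogeneousComponent i p)) =
      if d = i then σ g (homogeneousComponent i p) else 0 := fun i =>
    homogeneousComponent_of_mem (h1 i)
  simp only [h2]
  rw [Finset.sum_ite_eq]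
  split_ifs with h3
  · rfl
  · rw [Finset.mem_range, not_lt] at h3
    rw [homogeneousComponent_eq_zero _ _ (by omega), map_zero]

theorem InvN.hcomp (h : GAct τ σ) {p : MvPolynomial (Fin n) F} (hp : InvN τ σ p) (d : ℕ) :
    InvN τ σ (homogeneousComponent d p) := fun g hg => by
  rw [← h.hcomp g d p, hp g hg]

theorem InvG.hcomp (h : GAct τ σ) {p : MvPolynomial (Fin n) F} (hp : InvG σ p) (d : ℕ) :
    InvG σ (homogeneousComponent d p) := fun g => by
  rw [← h.hcomp g d p, hp g]

theorem InvG.invN {p : MvPolynomial (Fin n) F} (hp : InvG σ p) : InvN τ σ p :=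
  fun g _ => hp g

theorem InvN.add {p q : MvPolynomial (Fin n) F} (hp : InvN τ σ p) (hq : InvN τ σ q) :
    InvN τ σ (p + q) := fun g hg => by rw [map_add, hp g hg, hq g hg]

theorem InvN.mul {p q : MvPolynomial (Fin n) F} (hp : InvN τ σ p) (hq : InvN τ σ q) :
    InvN τ σ (p * q) := fun g hg => by rw [map_mul, hp g hg, hq g hg]

theorem InvN.sum {ι : Type} {s : Finset ι} {p : ι → MvPolynomial (Fin n) F}
    (hp : ∀ i ∈ s, InvN τ σ (p i)) : InvN τ σ (∑ i ∈ s, p i) := fun g hg => by
  rw [map_sum]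
  exact Finset.sum_congr rfl fun i hi => hp i hi g hg

theorem InvN.C (h : GAct τ σ) (a : F) : InvN τ σ (C a) := fun g hg => by
  rw [h.coeff, hg, RingHom.id_apply]

/-- an element of `G` maps the invariants of the kernel to invariants of the kernel.
Proof: `g'` in the kernel: `g' g = g (g⁻¹ g' g)`, and `g⁻¹ g' g` is in the kernel. -/
theorem InvN.map (h : GAct τ σ) {p : MvPolynomial (Fin n) F} (hp : InvN τ σ p) (g : G) :
    InvN τ σ (σ g p) := fun g' hg' => by
  have h1 : τ (g⁻¹ * (g' * g)) = RingHom.id F := by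
    rw [h.τm, h.τm, hg', RingHom.id_comp, ← h.τm, inv_mul_cancel, h.τ1]
  have h2 : σ g' (σ g p) = σ (g' * g) p := by
    rw [h.σm]
    rfl
  have h3 : σ (g' * g) p = σ g (σ (g⁻¹ * (g' * g)) p) := by
    have h4 : g' * g = g * (g⁻¹ * (g' * g)) := by group
    conv_lhs => rw [h4, h.σm]
    rfl
  rw [h2, h3, hp _ h1]

/-- Proof: `Submodule.span_induction`, `InvN.map`, `GAct.homog`. -/
theorem GAct.idN_map (h : GAct τ σ) (g : G) {p : MvPolynomial (Fin n) F} (hp : p ∈ idN τ σ) :
    σ g p ∈ idN τ σ := by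
  refine Submodule.span_induction (p := fun x _ => σ g x ∈ idN τ σ) ?_ ?_ ?_ ?_ hp
  · rintro x ⟨h1, d, h2, h3⟩
    exact Ideal.subset_span ⟨InvN.map h h1 g, d, h2, h.homog h3 g⟩
  · rw [map_zero]
    exact Submodule.zero_mem _
  · intro x y _ _ hx hy
    rw [map_add]
    exact Submodule.add_mem _ hx hy
  · intro a x _ hx
    rw [smul_eq_mul, map_mul]
    exact Ideal.mul_mem_left _ _ hx

end NF83
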