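import Pool.Agent.H.MP_83e36b_nt.nr.SDefs

/-! Extensions by groups generated by pseudo-reflections. -/

set_option autoImplicit false

namespace NF83

/-- The kernel of the surjection `q : G → A` is a group generated by pseudo-reflections: `ρ` is a
`K`-semilinear representation of `G` on `K^n` (a cocycle `ρ : G → GL_n(K)`, `ρ(g h) = ρ(g) g(ρ(h))`, over
the action `γ ∘ q` of `G` on `K`) on which the kernel acts faithfully (`inj`), and the kernel is generated
by elements `s` for which `ρ(s) - 1` has rank at most one (`gen`). -/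
structure KerRefl {k K : Type} [Field k] [Field K] [Algebra k K] {G A : Type} [Group G] [Group A]
    (γ : A →* (K ≃ₐ[k] K)) (q : G →* A) {n : ℕ} (ρ : G → Matrix (Fin n) (Fin n) K) : Prop where
  one : ρ 1 = 1
  mul : ∀ g h, ρ (g * h) = ρ g * (ρ h).map (γ (q g))
  inj : ∀ h, q h = 1 → ρ h = 1 → h = 1
  gen : ∀ h, q h = 1 → h ∈ Subgroup.closure
    {s : G | q s = 1 ∧ ∃ u w : Fin n → K, ρ s = 1 + Matrix.vecMulVec u w}

end NF83
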