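import Pool.Agent.H.MP_83e36b_nt.rr.Rey
import Pool.Agent.H.MP_83e36b_nt.rr.Dlt

/-! The main lemma of Chevalley. -/

set_option autoImplicit false

open MvPolynomial

namespace NF83

variable {F : Type} [Field F] {n : ℕ} {G : Type} [Group G] {τ : G → F →+* F}
  {σ : G → MvPolynomial (Fin n) F →+* MvPolynomial (Fin n) F}

/-- the component of a product with a homogeneous polynomial -/
private theorem LemA_comp {f g : MvPolynomial (Fin n) F} {e : ℕ} (hf : f.IsHomogeneous e) (k : ℕ) :
    homogeneousComponent k (f * g) = if e ≤ k then f * homogeneousComponent (k - e) g else 0 := by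
  have h1 : ∀ j, homogeneousComponent k (f * homogeneousComponent j g) =
      if k = e + j then f * homogeneousComponent j g else 0 := fun j =>
    homogeneousComponent_of_mem (hf.mul (homogeneousComponent_isHomogeneous j g))
  have h2 : f * g = ∑ j ∈ Finset.range (g.totalDegree + 1), f * homogeneousComponent j g := by
    rw [← Finset.mul_sum, sum_homogeneousComponent]
  rw [h2, map_sum]
  simp only [h1]
  by_cases he : e ≤ k
  · rw [if_pos he]
    by_cases hk : k - e ∈ Finset.range (g.totalDegree + 1)
    · rw [Finset.sum_eq_single_of_mem _ hk, if_pos (by omega)]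
      intro j _ hj
      exact if_neg (by omega)
    · have h3 : homogeneousComponent (k - e) g = 0 := by
        refine homogeneousComponent_eq_zero _ _ ?_
        rw [Finset.mem_range] at hk
        omega
      rw [h3, mul_zero]
      refine Finset.sum_eq_zero fun j hj => if_neg ?_
      intro h4
      apply hk
      have h5 : k - e = j := by omega
      rw [h5]
      exact hj
  · rw [if_neg he]
    exact Finset.sum_eq_zero fun j _ => if_neg (by omega)

private theorem LemA_add {ι : Type} (D : MvPolynomial (Fin n) F → MvPolynomial (Fin n) F)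
    (hD : ∀ p q, D (p + q) = D p + D q) (M : Finset ι) (p : ι → MvPolynomial (Fin n) F) :
    D (∑ i ∈ M, p i) = ∑ i ∈ M, D (p i) := by
  classical
  have h0 : D 0 = 0 := by
    have := hD 0 0
    rw [add_zero] at this
    exact left_eq_add.1 this
  induction M using Finset.induction_on with
  | empty => simpa using h0
  | insert a s ha ih => rw [Finset.sum_insert ha, Finset.sum_insert ha, hD, ih]

/-- Proof: induction on `d`.
`d = 0`: `g i0 = C c`.  If `c = 0` done.  Otherwise apply the mean value `R` of `exists_rey` to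
`f i0 * C c = - ∑_{i ≠ i0} f i * g i`: `f i0 * C c = - ∑ f i * R (g i)`, so
`f i0 = ∑ (- C c⁻¹ * R (g i)) * f i`, a contradiction to `hmin`.
`d + 1`: for a pseudo-reflection `s` in the kernel let `Δ` be as in `exists_delta`; from
`0 = Δ (∑ f i * g i) = ∑ f i * Δ (g i)` and the induction hypothesis (for the family `Δ ∘ g`)
`Δ (g i0) ∈ idN`, so `σ s (g i0) - g i0 ∈ idN`.  The `x ∈ G` with `σ x (g i0) - g i0 ∈ idN` form a
subgroup (`GAct.idN_map`), so by `hgen` it contains the kernel.  By the last property of `R`,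
`R (g i0) - g i0 ∈ idN`, and `R (g i0) ∈ idN` because it is an invariant of degree `d + 1 > 0`. -/
theorem lemA [CharZero F] [Finite G] (h : GAct τ σ) (hgen : GenRfl τ σ) {ι : Type}
    [DecidableEq ι] {M : Finset ι} {i0 : ι} (hi0 : i0 ∈ M) {f : ι → MvPolynomial (Fin n) F}
    (hf : ∀ i ∈ M, InvN τ σ (f i))
    (hmin : ¬ ∃ c : ι → MvPolynomial (Fin n) F, (∀ i, InvN τ σ (c i)) ∧
      f i0 = ∑ i ∈ M.erase i0, c i * f i) (d : ℕ) :
    ∀ g : ι → MvPolynomial (Fin n) F, (g i0).IsHomogeneous d → ∑ i ∈ M, f i * g i = 0 →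
      g i0 ∈ idN τ σ := by
  induction d with
  | zero =>
    intro g hg hsum
    obtain ⟨R, hR1, hR2, hR3, hR4, _, _⟩ := exists_rey h
    have h1 : g i0 = C ((g i0).coeff 0) :=
      totalDegree_eq_zero_iff_eq_C.1 (Nat.le_zero.1 hg.totalDegree_le)
    obtain ⟨c, hc⟩ : ∃ c, c = (g i0).coeff 0 := ⟨_, rfl⟩
    rw [← hc] at h1
    by_cases hc0 : c = 0
    · rw [h1, hc0, C_0]
      exact Ideal.zero_mem _
    · exfalso
      apply hmin
      refine ⟨fun i => C (-c⁻¹) * R (g i), fun i => (InvN.C h _).mul (hR2 _), ?_⟩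
      have h2 : ∑ i ∈ M, f i * R (g i) = 0 := by
        have h3 : R (∑ i ∈ M, f i * g i) = ∑ i ∈ M, f i * R (g i) := by
          rw [LemA_add R hR1]
          exact Finset.sum_congr rfl fun i hi => hR4 _ _ (hf i hi)
        rw [← h3, hsum]
        have := hR1 0 0
        rw [add_zero] at this
        exact left_eq_add.1 this
      rw [← Finset.add_sum_erase M _ hi0, h1, hR3 (C c) (InvN.C h c)] at h2
      have h4 : (C c : MvPolynomial (Fin n) F) * C c⁻¹ = 1 := by
        rw [← C_mul, mul_inv_cancel₀ hc0, C_1]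
      have h5 : f i0 = f i0 * C c * C c⁻¹ := by
        rw [mul_assoc, h4, mul_one]
      rw [h5, eq_neg_of_add_eq_zero_left h2, neg_mul, Finset.sum_mul, ← Finset.sum_neg_distrib]
      refine Finset.sum_congr rfl fun i _ => ?_
      rw [C_neg]
      ring
  | succ d ih =>
    intro g hg hsum
    have hrefl : ∀ s, τ s = RingHom.id F → IsRfl σ s → σ s (g i0) - g i0 ∈ idN τ σ := by
      intro s hs hrs
      obtain ⟨l, Δ, hΔ1, hΔ2, hΔ3, hΔ4, _⟩ := exists_delta h hrs hs
      have h0 : Δ 0 = 0 := by
        have := hΔ2 0 0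
        rw [add_zero] at this
        exact left_eq_add.1 this
      have h1 : ∑ i ∈ M, f i * Δ (g i) = 0 := by
        have h3 : Δ (∑ i ∈ M, f i * g i) = ∑ i ∈ M, f i * Δ (g i) := by
          rw [LemA_add Δ hΔ2]
          exact Finset.sum_congr rfl fun i hi => hΔ3 _ _ (hf i hi s hs)
        rw [← h3, hsum, h0]
      have h2 : Δ (g i0) ∈ idN τ σ := ih (fun i => Δ (g i)) (hΔ4 _ _ hg) h1
      rw [hΔ1, add_sub_cancel_left]
      exact Ideal.mul_mem_left _ _ h2
    let H : Subgroup G :=
      { carrier := {x | σ x (g i0) - g i0 ∈ idN τ σ}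
        mul_mem' := by
          intro x y hx hy
          show σ (x * y) (g i0) - g i0 ∈ idN τ σ
          have h1 : σ (x * y) (g i0) - g i0 = σ x (σ y (g i0) - g i0) + (σ x (g i0) - g i0) := by
            rw [h.σm, RingHom.comp_apply, map_sub]
            ring
          rw [h1]
          exact Ideal.add_mem _ (GAct.idN_map h x hy) hx
        one_mem' := by
          show σ 1 (g i0) - g i0 ∈ idN τ σ
          rw [h.σ1, RingHom.id_apply, sub_self]
          exact Ideal.zero_mem _
        inv_mem' := by
          intro x hx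
          show σ x⁻¹ (g i0) - g i0 ∈ idN τ σ
          have h1 : σ x⁻¹ (σ x (g i0)) = g i0 := by
            rw [← RingHom.comp_apply, ← h.σm, inv_mul_cancel, h.σ1, RingHom.id_apply]
          have h2 : σ x⁻¹ (g i0) - g i0 = -(σ x⁻¹ (σ x (g i0) - g i0)) := by
            rw [map_sub, h1]
            ring
          rw [h2]
          exact neg_mem (GAct.idN_map h x⁻¹ hx) }
    have hall : ∀ x, τ x = RingHom.id F → σ x (g i0) - g i0 ∈ idN τ σ := fun x hx =>
      hgen H hrefl x hx
    obtain ⟨R, _, hR2, _, _, hR5, hR6⟩ := exists_rey h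
    have h1 : R (g i0) - g i0 ∈ idN τ σ := hR6 _ _ hall
    have h2 : R (g i0) ∈ idN τ σ :=
      Ideal.subset_span ⟨hR2 _, d + 1, Nat.succ_pos d, hR5 _ _ hg⟩
    have h3 : g i0 = R (g i0) - (R (g i0) - g i0) := by ring
    rw [h3]
    exact Ideal.sub_mem _ h2 h1

/-- Proof: for every `m` the family of the components of degree `m + e i0 - e i` of the `g i` (`0` if
`m + e i0 < e i`) satisfies the relation (component of degree `m + e i0` of the relation), so `lemA`
shows that all components of `g i0` are in `idN`; `g i0` is the sum of its components. -/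
theorem lemA2 [CharZero F] [Finite G] (h : GAct τ σ) (hgen : GenRfl τ σ) {ι : Type}
    [DecidableEq ι] {M : Finset ι} {i0 : ι} (hi0 : i0 ∈ M) {f : ι → MvPolynomial (Fin n) F}
    (hf : ∀ i ∈ M, InvN τ σ (f i)) (e : ι → ℕ) (he : ∀ i ∈ M, (f i).IsHomogeneous (e i))
    (hmin : ¬ ∃ c : ι → MvPolynomial (Fin n) F, (∀ i, InvN τ σ (c i)) ∧
      f i0 = ∑ i ∈ M.erase i0, c i * f i) (g : ι → MvPolynomial (Fin n) F)
    (hsum : ∑ i ∈ M, f i * g i = 0) : g i0 ∈ idN τ σ := by
  have key : ∀ m, homogeneousComponent m (g i0) ∈ idN τ σ := by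
    intro m
    have h1 := lemA h hgen hi0 hf hmin m
      (fun i => if e i ≤ m + e i0 then homogeneousComponent (m + e i0 - e i) (g i) else 0)
    have h2 : (if e i0 ≤ m + e i0 then homogeneousComponent (m + e i0 - e i0) (g i0) else 0) =
        homogeneousComponent m (g i0) := by
      rw [if_pos (Nat.le_add_left _ _), Nat.add_sub_cancel]
    simp only [h2] at h1
    refine h1 (homogeneousComponent_isHomogeneous m _) ?_
    have h3 : ∀ i ∈ M, f i * (if e i ≤ m + e i0 then
        homogeneousComponent (m + e i0 - e i) (g i) else 0) =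
        homogeneousComponent (m + e i0) (f i * g i) := by
      intro i hi
      rw [LemA_comp (he i hi)]
      split_ifs
      · rfl
      · rw [mul_zero]
    rw [Finset.sum_congr rfl h3, ← map_sum, hsum, map_zero]
  rw [← sum_homogeneousComponent (g i0)]
  exact Ideal.sum_mem _ fun m _ => key m

end NF83
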