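import Pool.Agent.H.MP_83e36b_nt.rr.KDef
import Pool.Agent.H.MP_83e36b_nt.bc.FDef

/-! Transfer of the condition on the kernel to the fibre product. -/

set_option autoImplicit false

namespace NF83

/-- Proof: `ρ' x = (ρ (p x)).map (algebraMap K E)`.  `mul`: for `x ∈ G'` and `a ∈ K`,
`γ' (q' x) (algebraMap K E a) = algebraMap K E (γ (q (p x)) a)` (`hq'`, `hγ'`).  `inj`: `hk.map`, `h.inj`,
`hk.inj`.  `gen`: for `x` with `q' x = 1`, `p x` is in the closure of the pseudo-reflections of `G`; show by
`Subgroup.closure_induction` that for all `g` in this closure and `x` with `q' x = 1`, `p x = g`, `x` is in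
the closure of those of `G'` (`hk.surj` lifts the factors; `hk.inj`: the lift is unique). -/
theorem KerRefl.pull {k K L E : Type} [Field k] [Field K] [Field L] [Field E] [Algebra k K]
    [Algebra L E] [Algebra K E] {G A G' A' : Type} [Group G] [Group A] [Group G'] [Group A']
    {γ : A →* (K ≃ₐ[k] K)} {q : G →* A} {n : ℕ} {ρ : G → Matrix (Fin n) (Fin n) K}
    (h : KerRefl γ q ρ) {γ' : A' →* (E ≃ₐ[L] E)} {q' : G' →* A'} {p : G' →* G}
    (hγ' : ∀ x a, γ' (q' x) (algebraMap K E a) = algebraMap K E (γ (q (p x)) a))
    (hk : KIso q q' p) :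
    KerRefl γ' q' fun x => (ρ (p x)).map (algebraMap K E) := by
  have hinjK : Function.Injective (algebraMap K E) := (algebraMap K E).injective
  have hone : ∀ M : Matrix (Fin n) (Fin n) K, M.map (algebraMap K E) = 1 ↔ M = 1 := by
    intro M
    constructor
    · intro hM
      ext i j
      apply hinjK
      have h1 := congrFun (congrFun hM i) j
      rw [Matrix.map_apply] at h1
      rw [h1, Matrix.one_apply, Matrix.one_apply]
      split_ifs
      · rw [map_one]
      · rw [map_zero]
    · intro hM
      rw [hM, Matrix.map_one _ (map_zero _) (map_one _)]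
  refine ⟨?_, fun x y => ?_, fun x hx hρ => ?_, fun x hx => ?_⟩
  · show (ρ (p 1)).map (algebraMap K E) = 1
    rw [hone, map_one, h.one]
  · show (ρ (p (x * y))).map (algebraMap K E) =
      (ρ (p x)).map (algebraMap K E) * ((ρ (p y)).map (algebraMap K E)).map (γ' (q' x))
    rw [map_mul, h.mul, Matrix.map_mul]
    congr 1
    ext i j
    simp only [Matrix.map_apply]
    exact (hγ' x _).symm
  · have h1 : p x = 1 := h.inj _ (hk.map x hx) ((hone _).1 hρ)
    exact hk.inj x hx h1
  · obtain ⟨S, hS⟩ : ∃ S : Set G, S = {s : G | q s = 1 ∧ ∃ u w : Fin n → K,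
        ρ s = 1 + Matrix.vecMulVec u w} := ⟨_, rfl⟩
    have hgen : p x ∈ Subgroup.closure S := by
      rw [hS]
      exact h.gen _ (hk.map x hx)
    have hker : ∀ g ∈ Subgroup.closure S, q g = 1 := by
      intro g hg
      have h1 : Subgroup.closure S ≤ q.ker := by
        rw [Subgroup.closure_le, hS]
        exact fun s hs => hs.1
      exact h1 hg
    have key : ∀ g ∈ Subgroup.closure S, ∀ x, q' x = 1 → p x = g →
        x ∈ Subgroup.closure {s : G' | q' s = 1 ∧ ∃ u w : Fin n → E,
          (ρ (p s)).map (algebraMap K E) = 1 + Matrix.vecMulVec u w} := by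
      intro g hg
      induction hg using Subgroup.closure_induction with
      | mem g hg =>
        intro x hx hpx
        rw [hS] at hg
        obtain ⟨-, u, w, huw⟩ := hg
        refine Subgroup.subset_closure ⟨hx, fun i => algebraMap K E (u i),
          fun i => algebraMap K E (w i), ?_⟩
        rw [hpx, huw]
        ext i j
        simp only [Matrix.map_apply, Matrix.add_apply, Matrix.one_apply, Matrix.vecMulVec_apply,
          map_add, map_mul]
        split_ifs
        · rw [map_one]
        · rw [map_zero]
      | one =>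
        intro x hx hpx
        rw [hk.inj x hx hpx]
        exact Subgroup.one_mem _
      | mul g g' hg hg' ih ih' =>
        intro x hx hpx
        obtain ⟨y, hy, hpy⟩ := hk.surj g (hker g hg)
        obtain ⟨z, hz, hpz⟩ := hk.surj g' (hker g' hg')
        have h1 : x * (y * z)⁻¹ = 1 := by
          refine hk.inj _ ?_ ?_
          · rw [map_mul, map_inv, map_mul, hx, hy, hz]
            simp
          · rw [map_mul, map_inv, map_mul, hpx, hpy, hpz]
            simp
        rw [mul_inv_eq_one.1 h1]
        exact Subgroup.mul_mem _ (ih y hy hpy) (ih' z hz hpz)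
      | inv g hg ih =>
        intro x hx hpx
        obtain ⟨y, hy, hpy⟩ := hk.surj g (hker g hg)
        have h1 : x * y = 1 := by
          refine hk.inj _ ?_ ?_
          · rw [map_mul, hx, hy]
            simp
          · rw [map_mul, hpx, hpy]
            simp
        rw [eq_inv_of_mul_eq_one_left h1]
        exact Subgroup.inv_mem _ (ih y hy hpy)
    exact key _ hgen x hx rfl

end NF83
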