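import Pool.Agent.H.MP_83e36b_nt.rr.Frc
import Pool.Agent.H.MP_83e36b_nt.nr.SMain

/-! The invariants of a group with a normal subgroup generated by pseudo-reflections. -/

set_option autoImplicit false

open CM83 NR83

namespace NF83

/-- The fixed field of the restriction of an action to a stable subfield which contains all fixed
elements. -/
private theorem RQ_core {k : Type} [Field k] [CharZero k] {L : Type} [Field L] [Algebra k L]
    {G : Type} [Group G] [Finite G] (α : G →* (L ≃ₐ[k] L)) {E : Type} [Field E]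
    [Algebra k E] [Algebra L E] [IsScalarTower k L E] (ε : G →* (E ≃ₐ[k] E))
    (hε : ∀ g a, ε g (algebraMap L E a) = algebraMap L E (α g a))
    {κ : Type} [Finite κ] (u : κ → E) (hu : AlgebraicIndependent L u)
    (hperm : ∀ g x, ε g (u x) ∈ Set.range u)
    (hker : ∀ g, (∀ a : L, α g a = a) → ∀ x, ε g (u x) = u x)
    (hfix : ∀ z : E, (∀ g, ε g z = z) → z ∈ IntermediateField.adjoin L (Set.range u)) :
    StablyIso k (fixF α) (fixF ε) := by
  let E₁ : IntermediateField L E := IntermediateField.adjoin L (Set.range u)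
  have hmem : ∀ (g : G) (x : E), x ∈ E₁ → ε g x ∈ E₁ := by
    intro g x hx
    induction hx using IntermediateField.adjoin_induction with
    | mem x hx =>
      obtain ⟨y, rfl⟩ := hx
      exact IntermediateField.subset_adjoin L (Set.range u) (hperm g y)
    | algebraMap a =>
      rw [hε]
      exact E₁.algebraMap_mem _
    | add x y _ _ h1 h2 =>
      rw [map_add]
      exact add_mem h1 h2
    | inv x _ h1 =>
      rw [map_inv₀]
      exact inv_mem h1
    | mul x y _ _ h1 h2 =>
      rw [map_mul]
      exact mul_mem h1 h2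
  let f : G → (E₁ →ₐ[k] E₁) := fun g =>
    { toFun := fun x => ⟨ε g x, hmem g x x.2⟩
      map_one' := Subtype.ext (map_one (ε g))
      map_mul' := fun a b => Subtype.ext (map_mul (ε g) (a : E) (b : E))
      map_zero' := Subtype.ext (map_zero (ε g))
      map_add' := fun a b => Subtype.ext (map_add (ε g) (a : E) (b : E))
      commutes' := fun a => Subtype.ext ((ε g).commutes a) }
  have hf : ∀ (g : G) (x : E₁), ((f g x : E₁) : E) = ε g (x : E) := fun g x => rfl
  have hff : ∀ g h : G, (f g).comp (f h) = f (g * h) := by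
    intro g h
    refine AlgHom.ext fun x => Subtype.ext ?_
    rw [AlgHom.comp_apply, hf, hf, hf, map_mul]
    rfl
  have hf1 : f 1 = AlgHom.id k E₁ := by
    refine AlgHom.ext fun x => Subtype.ext ?_
    rw [hf, map_one]
    rfl
  let ε₁ : G →* (E₁ ≃ₐ[k] E₁) :=
    { toFun := fun g => AlgEquiv.ofAlgHom (f g) (f g⁻¹)
        (by rw [hff, mul_inv_cancel, hf1]) (by rw [hff, inv_mul_cancel, hf1])
      map_one' := by
        refine AlgEquiv.ext fun x => ?_
        show f 1 x = x
        rw [hf1]
        rfl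
      map_mul' := fun g h => by
        refine AlgEquiv.ext fun x => ?_
        show f (g * h) x = f g (f h x)
        rw [← hff]
        rfl }
  have hε₁ : ∀ (g : G) (x : E₁), ((ε₁ g x : E₁) : E) = ε g (x : E) := fun g x => rfl
  let S : κ → E₁ := fun x => ⟨u x, IntermediateField.subset_adjoin L (Set.range u) ⟨x, rfl⟩⟩
  have hS : ∀ x, ((S x : E₁) : E) = u x := fun x => rfl
  have hcomp : (E₁.val : E₁ → E) ∘ S = u := rfl
  have hSalg : AlgebraicIndependent L S := by
    refine AlgebraicIndependent.of_comp E₁.val ?_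
    rw [hcomp]
    exact hu
  have hStop : IntermediateField.adjoin L (Set.range S) = ⊤ := by
    rw [eq_top_iff]
    intro x _
    have h4 : (IntermediateField.adjoin L (Set.range S)).map E₁.val = E₁ := by
      rw [IntermediateField.adjoin_map, ← Set.range_comp, hcomp]
    have h3 : (x : E) ∈ (IntermediateField.adjoin L (Set.range S)).map E₁.val := by
      rw [h4]
      exact x.2
    obtain ⟨z, hz, hzz⟩ := h3
    have h5 : z = x := Subtype.ext hzz
    rw [← h5]
    exact hz
  have hαβ : ∀ g a, ε₁ g (algebraMap L E₁ a) = algebraMap L E₁ (α g a) := by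
    intro g a
    apply Subtype.ext
    rw [hε₁]
    exact hε g a
  have h1 : StablyIso k (fixF α) (fixF ε₁) := by
    refine noname α ε₁ hαβ S hSalg hStop (fun g x => ?_) fun g hg x => ?_
    · obtain ⟨y, hy⟩ := hperm g x
      have h2 : ε₁ g (S x) = S y := by
        apply Subtype.ext
        rw [hε₁, hS, hS, hy]
      rw [h2]
      exact Submodule.subset_span ⟨y, rfl⟩
    · apply Subtype.ext
      rw [hε₁, hS]
      exact hker g hg x
  refine h1.trans (StablyIso.of_equiv ?_)
  refine AlgEquiv.ofBijective (A₁ := fixF ε₁) (A₂ := fixF ε) (R := k)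
    { toFun := fun x => ⟨((x : E₁) : E), (mem_fixF ε _).2 fun g => ?_⟩
      map_one' := rfl
      map_mul' := fun a b => rfl
      map_zero' := rfl
      map_add' := fun a b => rfl
      commutes' := fun a => rfl } ⟨?_, ?_⟩
  · rw [← hε₁, (mem_fixF ε₁ _).1 x.2 g]
  · intro x y hxy
    have h2 : ((x : E₁) : E) = ((y : E₁) : E) := congrArg (fun z : fixF ε => (z : E)) hxy
    exact Subtype.ext (Subtype.ext h2)
  · intro z
    have hz := (mem_fixF ε _).1 z.2
    refine ⟨⟨⟨(z : E), hfix _ hz⟩, (mem_fixF ε₁ _).2 fun g => ?_⟩, rfl⟩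
    apply Subtype.ext
    rw [hε₁]
    exact hz g

/-- Proof: copy the private theorem `symB_core` of tw/SymB.lean (prefix `RQ_`) and apply it to `δ ∘ q`
(`fixF_comp δ q hq`), `ε` and the family `u` of `refl_fix` (`κ = Fin r`). -/
theorem refl_quot {k : Type} [Field k] [CharZero k] {L : Type} [Field L] [Algebra k L]
    {G A : Type} [Group G] [Finite G] [Group A] (q : G →* A) (hq : Function.Surjective q)
    (δ : A →* (L ≃ₐ[k] L)) (hδ : Function.Injective δ) {n : ℕ}
    (ε : G →* (RF L n ≃ₐ[k] RF L n))
    (hε : ∀ g a, ε g (algebraMap L (RF L n) a) = algebraMap L (RF L n) (δ (q g) a))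
    (m : G → Matrix (Fin n) (Fin n) L)
    (hm : ∀ g j, ε g (xv L j) = ∑ i, algebraMap L (RF L n) (m g i j) * xv L i)
    (hgen : ∀ h, q h = 1 → h ∈ Subgroup.closure
      {s : G | q s = 1 ∧ ∃ u w : Fin n → L, m s = 1 + Matrix.vecMulVec u w}) :
    StablyIso k (fixF δ) (fixF ε) := by
  obtain ⟨r, u, hu, hinv, hfix⟩ := refl_fix q δ hδ ε hε m hm hgen
  rw [← fixF_comp δ q hq]
  refine RQ_core (δ.comp q) ε (fun g a => hε g a) u hu (fun g x => ⟨x, (hinv g x).symm⟩)
    (fun g _ x => hinv g x) hfix

end NF83
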