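import Pool.Agent.H.MP_83e36b_nt.rr.KZ

/-! The group generated by a group and scalars. -/

set_option autoImplicit false

namespace NF83

section

variable {k K : Type} [Field k] [Field K] [Algebra k K] {G A : Type} [Group G] [Group A]

/-- the action of `G` on the units -/
private def SAct_psi (γ : A →* (K ≃ₐ[k] K)) (q : G →* A) : G →* MulAut Kˣ where
  toFun g := Units.mapEquiv (γ (q g)).toMulEquiv
  map_one' := by
    ext z
    rw [map_one, map_one]
    rfl
  map_mul' g h := by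
    ext z
    rw [map_mul, map_mul]
    rfl

private theorem SAct_psi_apply (γ : A →* (K ≃ₐ[k] K)) (q : G →* A) (g : G) (z : Kˣ) :
    ((SAct_psi γ q g z : Kˣ) : K) = γ (q g) (z : K) := rfl

private theorem SAct_stab {γ : A →* (K ≃ₐ[k] K)} {q : G →* A} {n : ℕ}
    {ρ : G → Matrix (Fin n) (Fin n) K} {Z : Subgroup Kˣ} (h : KerReflZ γ q ρ Z) (g : G) {z : Kˣ}
    (hz : z ∈ Z) : SAct_psi γ q g z ∈ Z := h.stab g z hz

/-- the group -/
private def SAct_grp {γ : A →* (K ≃ₐ[k] K)} {q : G →* A} {n : ℕ}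
    {ρ : G → Matrix (Fin n) (Fin n) K} {Z : Subgroup Kˣ} (h : KerReflZ γ q ρ Z) :
    Subgroup (Kˣ ⋊[SAct_psi γ q] G) where
  carrier := {x | x.left ∈ Z}
  mul_mem' := by
    intro x y hx hy
    show (x * y).left ∈ Z
    rw [SemidirectProduct.mul_left]
    exact Z.mul_mem hx (SAct_stab h _ hy)
  one_mem' := Z.one_mem
  inv_mem' := by
    intro x hx
    show (x⁻¹).left ∈ Z
    rw [SemidirectProduct.inv_left]
    exact SAct_stab h _ (Z.inv_mem hx)

end

/-- Proof: `G' = Z ⋊ G` (`SemidirectProduct`, `G` acts on `Z` by `γ ∘ q`, `h.stab`), `p` the projection,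
`z (x) ` the component in `Z`; `ρ' (z, g) = z ρ(g)`.  Multiplicativity:
`z g(z') ρ(g g') = z ρ(g) g(z' ρ(g'))`.  The last property: let `q (p x) = 1`.  By `h.gen`, `ρ' x` is a
product of `ρ' s`, `s` in the set; by `Submonoid.closure_induction` every element `M` of that closure
is `ρ' y` with `y` in `Subgroup.closure` of the set and `q (p y) = 1` (on the kernel of `q ∘ p` the map
`ρ'` is multiplicative).  So `ρ' x = ρ' y`, `ρ' (x * y⁻¹) = 1`, so `x * y⁻¹` is in the set (`u = 0`). -/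
theorem exists_scal {k K : Type} [Field k] [Field K] [Algebra k K] {G A : Type} [Group G]
    [Group A] [Finite G] {γ : A →* (K ≃ₐ[k] K)} {q : G →* A} {n : ℕ}
    {ρ : G → Matrix (Fin n) (Fin n) K} {Z : Subgroup Kˣ} (h : KerReflZ γ q ρ Z) :
    ∃ (G' : Type) (_ : Group G') (_ : Finite G') (p : G' →* G) (z : G' → K),
      Function.Surjective p ∧ (∀ x, z x ≠ 0) ∧ z 1 • ρ (p 1) = 1 ∧
      (∀ x y, z (x * y) • ρ (p (x * y)) =
        (z x • ρ (p x)) * (z y • ρ (p y)).map (γ (q (p x)))) ∧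
      ∀ x, q (p x) = 1 → x ∈ Subgroup.closure
        {s : G' | q (p s) = 1 ∧ ∃ u w : Fin n → K, z s • ρ (p s) = 1 + Matrix.vecMulVec u w} := by
  classical
  have hfin := h.fin
  obtain ⟨p, hp⟩ : ∃ p : SAct_grp h →* G, ∀ x, p x = (x : Kˣ ⋊[SAct_psi γ q] G).right :=
    ⟨SemidirectProduct.rightHom.comp (SAct_grp h).subtype, fun x => rfl⟩
  obtain ⟨z, hz⟩ : ∃ z : SAct_grp h → K, ∀ x, z x = ((x : Kˣ ⋊[SAct_psi γ q] G).left : K) :=
    ⟨fun x => ((x : Kˣ ⋊[SAct_psi γ q] G).left : K), fun x => rfl⟩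
  have hmul : ∀ x y, z (x * y) • ρ (p (x * y)) =
      (z x • ρ (p x)) * (z y • ρ (p y)).map (γ (q (p x))) := by
    intro x y
    have e1 : z (x * y) = z x * γ (q (p x)) (z y) := by
      rw [hz, hz, hz, hp, Subgroup.coe_mul, SemidirectProduct.mul_left, Units.val_mul,
        SAct_psi_apply]
    have e2 : (z y • ρ (p y)).map (γ (q (p x))) =
        γ (q (p x)) (z y) • (ρ (p y)).map (γ (q (p x))) := by
      ext i j
      rw [Matrix.map_apply, Matrix.smul_apply, Matrix.smul_apply, Matrix.map_apply, smul_eq_mul,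
        smul_eq_mul, map_mul]
    rw [e1, e2, map_mul, h.mul, Matrix.smul_mul, Matrix.mul_smul, smul_smul]
  have hone : z 1 • ρ (p 1) = 1 := by
    have e1 : z 1 = 1 := by
      rw [hz]
      rfl
    rw [e1, map_one, h.one, one_smul]
  have hmul' : ∀ x y, q (p x) = 1 →
      z (x * y) • ρ (p (x * y)) = (z x • ρ (p x)) * (z y • ρ (p y)) := by
    intro x y hx
    rw [hmul, hx, map_one]
    congr 1
  have hF : Finite (SAct_grp h) := by
    have hinj : Function.Injective fun x : SAct_grp h =>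
        ((⟨(x : Kˣ ⋊[SAct_psi γ q] G).left, x.2⟩ : Z), (x : Kˣ ⋊[SAct_psi γ q] G).right) := by
      intro x y hxy
      rw [Prod.mk.injEq] at hxy
      apply Subtype.ext
      apply SemidirectProduct.ext
      · exact congrArg Subtype.val hxy.1
      · exact hxy.2
    exact Finite.of_injective _ hinj
  have mk : ∀ w ∈ Z, ∀ s : G, ∃ y : SAct_grp h, p y = s ∧ z y = (w : K) := by
    intro w hw s
    refine ⟨⟨⟨w, s⟩, hw⟩, ?_, ?_⟩
    · rw [hp]
    · rw [hz]
  refine ⟨SAct_grp h, inferInstance, hF, p, z, ?_, ?_, hone, hmul, ?_⟩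
  · intro g
    obtain ⟨y, hy, -⟩ := mk 1 Z.one_mem g
    exact ⟨y, hy⟩
  · intro x
    rw [hz]
    exact Units.ne_zero _
  · intro x hx
    have key : ∀ M ∈ Submonoid.closure
        {M : Matrix (Fin n) (Fin n) K | (∃ z' ∈ Z, ∃ s, q s = 1 ∧ M = (z' : K) • ρ s) ∧
          ∃ u w : Fin n → K, M = 1 + Matrix.vecMulVec u w},
        ∃ y : SAct_grp h, q (p y) = 1 ∧ y ∈ Subgroup.closure
          {s : SAct_grp h | q (p s) = 1 ∧ ∃ u w : Fin n → K,
            z s • ρ (p s) = 1 + Matrix.vecMulVec u w} ∧ z y • ρ (p y) = M := by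
      intro M hM
      induction hM using Submonoid.closure_induction with
      | mem M hM =>
        obtain ⟨⟨z', hz', s, hs, hMs⟩, u, w, huw⟩ := hM
        obtain ⟨y, hy1, hy2⟩ := mk z' hz' s
        have e1 : z y • ρ (p y) = M := by
          rw [hy1, hy2, hMs]
        refine ⟨y, ?_, Subgroup.subset_closure ⟨?_, u, w, ?_⟩, e1⟩
        · rw [hy1, hs]
        · rw [hy1, hs]
        · rw [e1, huw]
      | one => exact ⟨1, by rw [map_one, map_one], Subgroup.one_mem _, hone⟩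
      | mul M N _ _ hM hN =>
        obtain ⟨y, hy1, hy2, hy3⟩ := hM
        obtain ⟨y', hy1', hy2', hy3'⟩ := hN
        refine ⟨y * y', ?_, Subgroup.mul_mem _ hy2 hy2', ?_⟩
        · rw [map_mul, map_mul, hy1, hy1', one_mul]
        · rw [hmul' y y' hy1, hy3, hy3']
    have hzx : (x : Kˣ ⋊[SAct_psi γ q] G).left ∈ Z := x.2
    obtain ⟨y, hy1, hy2, hy3⟩ := key _ (h.gen _ hzx (p x) hx)
    have hy3' : z y • ρ (p y) = z x • ρ (p x) := by
      rw [hy3, hz]
    have hq : q (p (x * y⁻¹)) = 1 := by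
      rw [map_mul, map_mul, map_inv, map_inv, hx, hy1, inv_one, one_mul]
    have h5 := hmul' (x * y⁻¹) y hq
    rw [inv_mul_cancel_right] at h5
    have h6 := hmul' y y⁻¹ hy1
    rw [mul_inv_cancel, hone] at h6
    have h7 : z (x * y⁻¹) • ρ (p (x * y⁻¹)) = 1 := by
      calc z (x * y⁻¹) • ρ (p (x * y⁻¹)) =
          (z (x * y⁻¹) • ρ (p (x * y⁻¹))) * ((z y • ρ (p y)) * (z y⁻¹ • ρ (p y⁻¹))) := by
            rw [← h6, Matrix.mul_one]
        _ = (z x • ρ (p x)) * (z y⁻¹ • ρ (p y⁻¹)) := by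
            rw [← Matrix.mul_assoc, ← h5]
        _ = 1 := by rw [← hy3', ← h6]
    have h8 : x * y⁻¹ ∈ Subgroup.closure
          {s : SAct_grp h | q (p s) = 1 ∧ ∃ u w : Fin n → K,
            z s • ρ (p s) = 1 + Matrix.vecMulVec u w} := by
      refine Subgroup.subset_closure ⟨hq, 0, 0, ?_⟩
      rw [h7, Matrix.zero_vecMulVec, add_zero]
    have h9 := Subgroup.mul_mem _ h8 hy2
    rwa [inv_mul_cancel_right] at h9

end NF83
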