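import Pool.Agent.H.MP_83e36b_nt.rr.RQ
import Pool.Agent.H.MP_83e36b_nt.rr.CAct
import Pool.Agent.H.MP_83e36b_nt.rr.Grd
import Pool.Agent.H.MP_83e36b_nt.rr.SAct

/-! The invariants of a group with a normal subgroup generated by pseudo-reflections modulo scalars. -/

set_option autoImplicit false

open CM83 NR83

namespace NF83

/-- Proof: `G'`, `p`, `z` from `exists_scal`, `ρ' x = z x • ρ (p x)`; `ε'` from `exists_cocAct` for
`α = (γ.comp q).comp p`, `(δ.comp q).comp p` and `ρ'`.  `refl_quot` for `q.comp p`, `δ`, `ε'`,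
`m x = (ρ' x).map (algebraMap K L)` (the closure: map `u`, `w` to `L`): `StablyIso (fixF δ) (fixF ε')`.  Let `E₀`
be as in `exists_E0` for `ε`.  By `Hfr.scal` (`f₁ = ε (p x)`, `f₂ = ε' x`, `c = z x`) and as `p` is surjective,
`E₀` is also the field of `exists_E0` for `ε'`.  `grad_st` for `ε` and for `ε'`. -/
theorem refl_quotZ {k : Type} [Field k] [CharZero k] {K : Type} [Field K] [Algebra k K] {L : Type}
    [Field L] [Algebra k L] [Algebra K L] [IsScalarTower k K L] {G A : Type} [Group G] [Finite G]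
    [Group A] (q : G →* A) (hq : Function.Surjective q) (γ : A →* (K ≃ₐ[k] K)) {n : ℕ}
    {ρ : G → Matrix (Fin n) (Fin n) K} {Z : Subgroup Kˣ} (h : KerReflZ γ q ρ Z)
    (δ : A →* (L ≃ₐ[k] L)) (hδ : Function.Injective δ)
    (hδγ : ∀ a x, δ a (algebraMap K L x) = algebraMap K L (γ a x))
    (ε : G →* (RF L n ≃ₐ[k] RF L n))
    (hε : ∀ g a, ε g (algebraMap L (RF L n) a) = algebraMap L (RF L n) (δ (q g) a))
    (hερ : ∀ g j, ε g (xv L j) =
      ∑ i, algebraMap L (RF L n) (algebraMap K L (ρ g i j)) * xv L i) :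
    StablyIso k (fixF δ) (fixF ε) := by
  obtain ⟨G', _, _, p, z, hp, hz0, hz1, hzm, hzc⟩ := exists_scal h
  obtain ⟨ρ', hρ'⟩ : ∃ ρ' : G' → Matrix (Fin n) (Fin n) K, ρ' = fun x => z x • ρ (p x) :=
    ⟨_, rfl⟩
  have hρx : ∀ x, ρ' x = z x • ρ (p x) := fun x => by rw [hρ']
  obtain ⟨ε', hε', hx'⟩ := exists_cocAct ((γ.comp q).comp p) ((δ.comp q).comp p)
    (fun g a => hδγ (q (p g)) a) ρ' (by rw [hρx]; exact hz1) (fun x y => by
      rw [hρx, hρx, hρx]
      exact hzm x y)
  have hq' : Function.Surjective (q.comp p) := hq.comp hp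
  have s1 : StablyIso k (fixF δ) (fixF ε') := by
    refine refl_quot (q.comp p) hq' δ hδ ε' (fun g a => hε' g a)
      (fun x => (ρ' x).map (algebraMap K L)) (fun g j => hx' g j) ?_
    intro x hx
    refine Subgroup.closure_mono ?_ (hzc x hx)
    rintro s ⟨hs, u, w, huw⟩
    refine ⟨hs, fun i => algebraMap K L (u i), fun i => algebraMap K L (w i), ?_⟩
    show (ρ' s).map (algebraMap K L) = _
    rw [hρx, huw]
    ext i j
    rw [Matrix.map_apply, Matrix.add_apply, Matrix.add_apply, map_add, Matrix.one_apply,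
      Matrix.one_apply, Matrix.vecMulVec_apply, Matrix.vecMulVec_apply, map_mul]
    split_ifs
    · rw [map_one]
    · rw [map_zero]
  obtain ⟨E₀, hE⟩ := exists_E0 ε
  have hsame : ∀ x (y : RF L n), Hfr 0 y → ε' x y = ε (p x) y := by
    intro x y hy
    refine Hfr.scal (f₁ := (ε (p x) : RF L n →+* RF L n)) (f₂ := (ε' x : RF L n →+* RF L n))
      ?_ (c := algebraMap L (RF L n) (algebraMap K L (z x))) ?_ ?_ hy
    · intro a
      show ε' x (algebraMap L (RF L n) a) = ε (p x) (algebraMap L (RF L n) a)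
      rw [hε', hε]
      rfl
    · intro h0
      rw [map_eq_zero, map_eq_zero] at h0
      exact hz0 x h0
    · intro j
      show ε' x (xv L j) = algebraMap L (RF L n) (algebraMap K L (z x)) * ε (p x) (xv L j)
      rw [hx', hερ, Finset.mul_sum]
      refine Finset.sum_congr rfl fun i _ => ?_
      rw [hρx, Matrix.smul_apply, smul_eq_mul, map_mul, map_mul]
      ring
  have hE' : ∀ y, y ∈ E₀ ↔ Hfr 0 y ∧ ∀ x, ε' x y = y := by
    intro y
    rw [hE]
    constructor
    · rintro ⟨h1, h2⟩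
      exact ⟨h1, fun x => by rw [hsame x y h1, h2]⟩
    · rintro ⟨h1, h2⟩
      refine ⟨h1, fun g => ?_⟩
      obtain ⟨x, rfl⟩ := hp g
      rw [← hsame x y h1, h2]
  have s2 : StablyIso k E₀ (fixF ε) :=
    grad_st (δ.comp q) ε (fun g a => hε g a)
      (fun g j => ⟨fun i => algebraMap K L (ρ g i j), hερ g j⟩) E₀ hE
  have s3 : StablyIso k E₀ (fixF ε') :=
    grad_st ((δ.comp q).comp p) ε' (fun g a => hε' g a)
      (fun g j => ⟨fun i => algebraMap K L (ρ' g i j), hx' g j⟩) E₀ hE'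
  exact (s1.trans s3.symm).trans s2

end NF83
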