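import Pool.Agent.H.MP_83e36b_nt.rr.KDef
import Pool.Agent.H.MP_83e36b_nt.rr.CAct
import Pool.Agent.H.MP_83e36b_nt.rr.RQ
import Pool.Agent.H.MP_83e36b_nt.nr.SCore

/-! The step of the towers with a group generated by pseudo-reflections. -/

set_option autoImplicit false

open CM83 NR83

namespace NF83

/-- Proof: as `red_sym` in tw/SymC.lean (copy): `L = RF K e` with the action `δ` of `A`, `ε` the action of
`G` on `E = RF L n` given by `exists_cocAct` for `γ ∘ q`, `δ ∘ q` and `ρ`.  `refl_quot` with
`m g = (ρ g).map (algebraMap K L)` (`h.gen`, map `u`, `w` to `L`): `StablyIso (fixF δ) (fixF ε)`.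
Faithful: if `ε g = 1` then `δ (q g) = 1`, so `q g = 1` (`hδ.inj`), and `ρ g = 1` by the uniqueness of the
coefficients (`xv_algInd`, linear independence; `semi_uniq`), so `g = 1` by `h.inj`.  The rest
(comparison of `β` and `ε` by `exists_semi_ext`, `noname`, `semiext`) as there; where `red_sym` uses
`ε g (xv i) = xv (g i)`, use that `ε g (xv i)` is a `K`-linear combination of the `xv j`. -/
theorem red_refl {k : Type} [Field k] [CharZero k] {K : Type} [Field K] [Algebra k K]
    {G A : Type} [Group G] [Finite G] [Group A] (q : G →* A) (hq : Function.Surjective q)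
    (γ : A →* (K ≃ₐ[k] K)) {n : ℕ} {ρ : G → Matrix (Fin n) (Fin n) K} (h : KerRefl γ q ρ)
    {d e : ℕ} (β : G →* (RF K d ≃ₐ[k] RF K d)) (hβ : SemiLin (γ.comp q) β)
    (δ : A →* (RF K e ≃ₐ[k] RF K e)) (hδ : SemiLin γ δ) : StablyIso k (fixF β) (fixF δ) := by
  classical
  have hczK : CharZero K := charZero_of_injective_algebraMap (algebraMap k K).injective
  have hcz : CharZero (RF K e) := charZero_of_injective_algebraMap (algebraMap K (RF K e)).injective
  obtain ⟨ε, hε1, hε2⟩ := exists_cocAct (L := RF K e) (γ.comp q) (δ.comp q)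
    (fun g a => hδ.coeff (q g) a) ρ h.one h.mul
  have hδε : StablyIso k (fixF δ) (fixF ε) := by
    refine refl_quot q hq δ hδ.inj ε hε1 (fun g => (ρ g).map (algebraMap K (RF K e))) hε2 ?_
    intro g hg
    refine Subgroup.closure_mono ?_ (h.gen g hg)
    rintro s ⟨hs, u, w, huw⟩
    refine ⟨hs, fun i => algebraMap K (RF K e) (u i), fun i => algebraMap K (RF K e) (w i), ?_⟩
    ext i j
    change algebraMap K (RF K e) (ρ s i j) = _
    rw [huw, Matrix.add_apply, Matrix.add_apply, Matrix.vecMulVec_apply, Matrix.vecMulVec_apply,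
      map_add, map_mul, Matrix.one_apply, Matrix.one_apply, apply_ite (algebraMap K (RF K e)),
      map_one, map_zero]
  have hεK : ∀ g (a : K), ε g (algebraMap K (RF (RF K e) n) a) =
      algebraMap K (RF (RF K e) n) ((γ.comp q) g a) := by
    intro g a
    rw [IsScalarTower.algebraMap_apply K (RF K e) (RF (RF K e) n), hε1,
      IsScalarTower.algebraMap_apply K (RF K e) (RF (RF K e) n)]
    congr 1
    exact hδ.coeff _ a
  -- faithful
  have hfaith : ∀ g, (∀ a, ε g a = a) → g = 1 := by
    intro g hg
    have hg1 : q g = 1 := by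
      apply hδ.inj
      rw [map_one]
      ext a
      apply (algebraMap (RF K e) (RF (RF K e) n)).injective
      have h2 := hg (algebraMap (RF K e) (RF (RF K e) n) a)
      rw [hε1] at h2
      exact h2
    apply h.inj g hg1
    ext i j
    have h2 := hg (xv (RF K e) j)
    rw [hε2] at h2
    have h3 : ∑ i, algebraMap (RF K e) (RF (RF K e) n) (algebraMap K (RF K e) (ρ g i j)) *
        xv (RF K e) i = ∑ i, algebraMap (RF K e) (RF (RF K e) n) (if i = j then 1 else 0) *
        xv (RF K e) i := by
      rw [h2, Finset.sum_eq_single j]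
      · rw [if_pos rfl, map_one, one_mul]
      · intro l _ hl
        rw [if_neg hl, map_zero, zero_mul]
      · intro hh
        exact absurd (Finset.mem_univ _) hh
    have h4 : algebraMap K (RF K e) (ρ g i j) = if i = j then 1 else 0 :=
      congrFun (semi_uniq h3) i
    apply (algebraMap K (RF K e)).injective
    rw [h4, Matrix.one_apply, apply_ite (algebraMap K (RF K e)), map_one, map_zero]
  -- the action of `G` on `F`
  obtain ⟨γF, hγ1, hγ2⟩ := exists_semi_ext (γ.comp q) β hβ ε hεK
  obtain ⟨c, hc⟩ := hβ.exists_coeff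
  have hEF : StablyIso k (fixF ε) (fixF γF) := by
    refine noname ε γF hγ1 (xv (RF (RF K e) n)) xv_algInd adjoin_xv ?_ ?_
    · intro g p
      rw [hγ2 g p (c g p) (hc g p)]
      refine Submodule.sum_mem _ fun j _ => ?_
      rw [IsScalarTower.algebraMap_apply K (RF (RF K e) n), ← Algebra.smul_def]
      exact Submodule.smul_mem _ _ (Submodule.subset_span ⟨j, rfl⟩)
    · intro g hg p
      rw [hfaith g hg, map_one]
      rfl
  have hVF : StablyIso k (fixF β) (fixF γF) := by
    have h1 := (xv_algInd (k := K) (n := e)).sumElim_comp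
      (xv_algInd (k := RF K e) (n := n))
    have h2 := core_top (adjoin_xv (k := K) (n := e)) (adjoin_xv (k := RF K e) (n := n))
    refine semiext (γ.comp q) β hβ γF ?_ (xv (RF (RF K e) n)) _
      (h1.sumElim_comp xv_algInd) (core_top h2 adjoin_xv) hγ2 ?_
    · intro g a
      rw [IsScalarTower.algebraMap_apply K (RF (RF K e) n), hγ1, hεK,
        ← IsScalarTower.algebraMap_apply K (RF (RF K e) n)]
    rintro g (i | i)
    · have h3 : γF g (algebraMap (RF (RF K e) n) (RF (RF (RF K e) n) d) (xv (RF K e) i)) =
          ∑ j, (ρ g j i) •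
            algebraMap (RF (RF K e) n) (RF (RF (RF K e) n) d) (xv (RF K e) j) := by
        rw [hγ1, hε2, map_sum]
        refine Finset.sum_congr rfl fun l _ => ?_
        rw [Algebra.smul_def, map_mul, ← IsScalarTower.algebraMap_apply K (RF K e),
          ← IsScalarTower.algebraMap_apply K (RF (RF K e) n)]
      change γF g (algebraMap (RF (RF K e) n) (RF (RF (RF K e) n) d) (xv (RF K e) i)) ∈ _
      rw [h3]
      refine Submodule.sum_mem _ fun j _ => Submodule.smul_mem _ _ (Submodule.subset_span ?_)
      exact ⟨Sum.inl j, rfl⟩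
    · obtain ⟨c', hc'⟩ := hδ.exists_coeff
      have h3 : γF g (algebraMap (RF (RF K e) n) (RF (RF (RF K e) n) d)
          (algebraMap (RF K e) (RF (RF K e) n) (xv K i))) = ∑ j,
            (c' (q g) i j) •
            algebraMap (RF (RF K e) n) (RF (RF (RF K e) n) d)
              (algebraMap (RF K e) (RF (RF K e) n) (xv K j)) := by
        have h4 : (δ.comp q) g (xv K i) = ∑ j, algebraMap K (RF K e) (c' (q g) i j) *
            xv K j := hc' _ i
        rw [hγ1, hε1, h4, map_sum, map_sum]
        refine Finset.sum_congr rfl fun l _ => ?_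
        rw [Algebra.smul_def, map_mul, map_mul, ← IsScalarTower.algebraMap_apply K (RF K e),
          ← IsScalarTower.algebraMap_apply K (RF (RF K e) n)]
      change γF g (algebraMap (RF (RF K e) n) (RF (RF (RF K e) n) d)
          (algebraMap (RF K e) (RF (RF K e) n) (xv K i))) ∈ _
      rw [h3]
      refine Submodule.sum_mem _ fun j _ => Submodule.smul_mem _ _ (Submodule.subset_span ?_)
      exact ⟨Sum.inr j, rfl⟩
  exact (hVF.trans hEF.symm).trans hδε.symm

end NF83
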