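import Pool.Agent.H.MP_83e36b_nt.rr.Hm

/-! The mean value over the kernel. -/

set_option autoImplicit false

open MvPolynomial

namespace NF83

variable {F : Type} [Field F] {n : ℕ} {G : Type} [Group G] {τ : G → F →+* F}
  {σ : G → MvPolynomial (Fin n) F →+* MvPolynomial (Fin n) F}

/-- Proof: `N` the subgroup (or `Finset`) of the `g` with `τ g = id`, `m` its order,
`R p = C (1 / m) * ∑_{g ∈ N} σ g p`.  Invariance: `σ h` permutes the summands (`h ∈ N`) and fixes
`C (1 / m)`.  The last property: `R p - p = C (1 / m) * ∑ (σ g p - p)`. -/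
theorem exists_rey [CharZero F] [Finite G] (h : GAct τ σ) :
    ∃ R : MvPolynomial (Fin n) F → MvPolynomial (Fin n) F,
      (∀ p q, R (p + q) = R p + R q) ∧ (∀ p, InvN τ σ (R p)) ∧ (∀ p, InvN τ σ p → R p = p) ∧
      (∀ f p, InvN τ σ f → R (f * p) = f * R p) ∧
      (∀ d p, p.IsHomogeneous d → (R p).IsHomogeneous d) ∧
      ∀ (J : Ideal (MvPolynomial (Fin n) F)) (p), (∀ g, τ g = RingHom.id F → σ g p - p ∈ J) →
        R p - p ∈ J := by
  classical
  let N : Subgroup G :=
    { carrier := {g | τ g = RingHom.id F}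
      one_mem' := h.τ1
      mul_mem' := by
        intro a b ha hb
        show τ (a * b) = RingHom.id F
        rw [h.τm, show τ a = RingHom.id F from ha, show τ b = RingHom.id F from hb,
          RingHom.id_comp]
      inv_mem' := by
        intro a ha
        show τ a⁻¹ = RingHom.id F
        have h1 := h.τm a⁻¹ a
        rw [inv_mul_cancel, h.τ1, show τ a = RingHom.id F from ha, RingHom.comp_id] at h1
        exact h1.symm }
  have : Fintype N := Fintype.ofFinite N
  have hmem : ∀ g : N, τ (g : G) = RingHom.id F := fun g => g.2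
  have hm : (Fintype.card N : F) ≠ 0 := Nat.cast_ne_zero.2 Fintype.card_ne_zero
  obtain ⟨c, hc⟩ : ∃ c : F, c * (Fintype.card N : F) = 1 :=
    ⟨(Fintype.card N : F)⁻¹, inv_mul_cancel₀ hm⟩
  have hcp : ∀ p : MvPolynomial (Fin n) F, C c * ∑ _g : N, p = p := by
    intro p
    rw [Finset.sum_const, Finset.card_univ, nsmul_eq_mul, ← mul_assoc,
      ← map_natCast (C : F →+* MvPolynomial (Fin n) F), ← map_mul, hc, map_one, one_mul]
  have hσ : ∀ (g k : G) (p : MvPolynomial (Fin n) F), σ g (σ k p) = σ (g * k) p := by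
    intro g k p
    rw [h.σm]
    rfl
  refine ⟨fun p => C c * ∑ g : N, σ (g : G) p, ?_, ?_, ?_, ?_, ?_, ?_⟩
  · intro p q
    simp only [map_add, Finset.sum_add_distrib, mul_add]
  · intro p k hk
    rw [map_mul, h.coeff, hk, RingHom.id_apply, map_sum]
    congr 1
    refine Fintype.sum_equiv (Equiv.mulLeft (⟨k, hk⟩ : N)) _ _ fun g => ?_
    rw [hσ]
    rfl
  · intro p hp
    have h1 : ∀ g : N, σ (g : G) p = p := fun g => hp g (hmem g)
    simp only [h1]
    exact hcp p
  · intro f p hf
    have h1 : ∀ g : N, σ (g : G) (f * p) = f * σ (g : G) p := fun g => by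
      rw [map_mul, hf g (hmem g)]
    simp only [h1]
    rw [← Finset.mul_sum, mul_left_comm]
  · intro d p hp
    have h1 : (∑ g : N, σ (g : G) p).IsHomogeneous d :=
      IsHomogeneous.sum _ _ _ fun g _ => h.homog hp g
    have h2 := (isHomogeneous_C (Fin n) c).mul h1
    rwa [zero_add] at h2
  · intro J p hp
    have h1 : C c * ∑ g : N, σ (g : G) p - p = C c * ∑ g : N, (σ (g : G) p - p) := by
      rw [Finset.sum_sub_distrib, mul_sub, hcp]
    show C c * ∑ g : N, σ (g : G) p - p ∈ J
    rw [h1]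
    exact J.mul_mem_left _ (Ideal.sum_mem _ fun g _ => hp g (hmem g))

end NF83
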